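import Pool.Agent.PolyTime.Classes

/-! Definitions for the statement: multi-criteria maximum TSP. -/

namespace Pool.Agent.Helper83.MaxTSP

open Pool.Agent.PolyTime

/-- An instance of `k`-criteria Max-ATSP: a complete directed graph on the vertices
`0, …, n - 1` (no loops, so the diagonal entries are fixed to be `0`) with `k` weight functions
which take nonnegative rational values. -/
structure Inst (k : ℕ) where
  n : ℕ
  w : Fin k → Fin n → Fin n → ℚ
  nonneg : ∀ i u v, 0 ≤ w i u v
  noloop : ∀ i u, w i u u = 0

/-- The table of weight vectors of an instance; this is what is written on the input tape. -/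
def Inst.table {k : ℕ} (I : Inst k) : List (List (List ℚ)) :=
  List.ofFn fun u => List.ofFn fun v => List.ofFn fun i => I.w i u v

theorem Inst.table_injective {k : ℕ} : Function.Injective (Inst.table (k := k)) := by
  rintro ⟨n, w, h1, h2⟩ ⟨n', w', h1', h2'⟩ h
  unfold Inst.table at h
  dsimp only at h
  have hn : n = n' := by
    have := congrArg List.length h
    simpa using this
  subst hn
  have h3 := List.ofFn_injective h
  have hw : w = w' := by
    funext i u v
    have h4 := congrFun h3 u
    have h5 := congrFun (List.ofFn_injective h4) v
    exact congrFun (List.ofFn_injective h5) i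
  subst hw
  rfl

/-- Instances are encoded by their tables of weight vectors, rational numbers in binary. -/
instance {k : ℕ} : PEnc (Inst k) := PEnc.ofInj Inst.table Inst.table_injective

/-- An instance of `k`-criteria Max-STSP: the weights are symmetric. -/
abbrev SymInst (k : ℕ) : Type := {I : Inst k // ∀ i u v, I.w i u v = I.w i v u}

/-- A Hamiltonian cycle, given as a cyclic sequence of all vertices without repetitions. -/
def IsHamCycle {n : ℕ} (H : List (Fin n)) : Prop := H.Nodup ∧ ∀ v, v ∈ H

/-- The weight of a cyclic sequence of vertices: the sum over all pairs of cyclically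
consecutive vertices. -/
def Inst.weight {k : ℕ} (I : Inst k) (i : Fin k) (H : List (Fin I.n)) : ℚ :=
  (List.zipWith (I.w i) H (H.rotate 1)).sum

/-- `P` (a list of sequences of natural numbers) is an `α`-approximate Pareto curve of the
instance `I`: its members are Hamiltonian cycles and for every Hamiltonian cycle `H` there is a
member `H'` with `w_i(H') ≥ α w_i(H)` for all `i`. -/
def IsApproxPareto {k : ℕ} (I : Inst k) (α : ℚ) (P : List (List ℕ)) : Prop :=
  (∀ x ∈ P, ∃ H : List (Fin I.n), IsHamCycle H ∧ H.map Fin.val = x) ∧
    ∀ H : List (Fin I.n), IsHamCycle H → ∃ H' : List (Fin I.n), IsHamCycle H' ∧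
      H'.map Fin.val ∈ P ∧ ∀ i, α * I.weight i H ≤ I.weight i H'

/-- There is a deterministic approximation algorithm with ratio `α` for `k`-criteria Max-ATSP. -/
def ApproxATSP (k : ℕ) (α : ℚ) : Prop :=
  ∃ A : Inst k → List (List ℕ), PolyTime A ∧ ∀ I, IsApproxPareto I α (A I)

/-- There is a deterministic approximation algorithm with ratio `α` for `k`-criteria Max-STSP. -/
def ApproxSTSP (k : ℕ) (α : ℚ) : Prop :=
  ∃ A : SymInst k → List (List ℕ), PolyTime A ∧ ∀ I, IsApproxPareto I.1 α (A I)

end Pool.Agent.Helper83.MaxTSP
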