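import Pool.Agent.Helper83.MaxTSP.Tour
import Pool.Agent.Helper83.MaxTSP.Defs

/-! The algorithm and its running time. -/

namespace Pool.Agent.Helper83.MaxTSP

open Pool.Agent.PolyTime

/-- weights from the table -/
def getw (T : List (List (List ℚ))) (i : ℕ) (e : ℕ × ℕ) : ℚ :=
  ((T.getD e.1 []).getD e.2 []).getD i 0

/-- lists of length at most `D` with entries in `l` -/
def upTo {β : Type} : ℕ → List β → List (List β)
  | 0, _ => [[]]
  | D + 1, l => [] :: l.flatMap (fun x => (upTo D l).map (fun y => x :: y))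

theorem mem_upTo {β : Type} (D : ℕ) (l : List β) (x : List β) (h1 : x.length ≤ D)
    (h2 : ∀ y ∈ x, y ∈ l) : x ∈ upTo D l := by
  induction D generalizing x with
  | zero =>
    have : x = [] := List.length_eq_zero_iff.1 (by omega)
    simp [upTo, this]
  | succ D ih =>
    cases x with
    | nil => simp [upTo]
    | cons a y =>
      simp only [upTo, List.mem_cons, List.mem_flatMap, List.mem_map]
      exact Or.inr ⟨a, h2 a (by simp), y, ih y (by simpa using h1)
        (fun z hz => h2 z (by simp [hz])), rfl⟩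

/-- the possible phases -/
def phases (k n : ℕ) : List (List ℕ × ℕ × ℕ × ℕ) :=
  (tuples k (List.range (2 * k * n + 1))).product
    ((List.range (2 * n + 3)).product ((List.range (2 * n + 3)).product (List.range (2 * n + 3))))

/-- all guesses -/
def guesses (k n : ℕ) : List (ℕ × List ℕ × List (ℕ × ℕ) × List (List ℕ × ℕ × ℕ × ℕ)) :=
  (List.range (2 * n + 3)).product ((upTo (hbound k) (List.range n)).product
    ((tuples k ((List.range (n + 1)).product (List.range (n + 1)))).product
      (tuples (k + 1) (phases k n))))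

/-- the tour which belongs to a guess -/
def candidate (k : ℕ) (T : List (List (List ℚ)))
    (g : ℕ × List ℕ × List (ℕ × ℕ) × List (List ℕ × ℕ × ℕ × ℕ)) : List ℕ :=
  tour T.length g.2.1
    (run k g.1 (getw T) g.2.2.1 (avail k T.length (getw T) g.2.1 g.2.2.1) g.2.2.2)

/-- is `c` a permutation of `0, …, n - 1` -/
def valid (n : ℕ) (c : List ℕ) : Bool :=
  decide (c.length = n) && (List.range n).all (fun v => decide (v ∈ c))

/-- the algorithm -/
def alg (k : ℕ) (T : List (List (List ℚ))) : List (List ℕ) :=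
  ((guesses k T.length).map (candidate k T)).filter (valid T.length)

section poly

variable {α : Type} [PEnc α]

theorem pt_getw {T : α → List (List (List ℚ))} {i : α → ℕ} {e : α → ℕ × ℕ} (hT : PolyTime T)
    (hi : PolyTime i) (he : PolyTime e) : PolyTime (fun x => getw (T x) (i x) (e x)) := by
  unfold getw
  fun_prop

theorem pt_tuples {β : Type} [PEnc β] (D : ℕ) {l : α → List β} (hl : PolyTime l) :
    PolyTime (fun x => tuples D (l x)) := by
  induction D with
  | zero => exact PolyTime.const _
  | succ D ih =>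
    simp only [tuples]
    refine PolyTime.flatMap hl ?_
    refine PolyTime.map (l := fun p : α × β => tuples D (l p.1))
      (g := fun (p : α × β) y => p.2 :: y) ?_ ?_
    · exact ih.comp (f := fun p : α × β => p.1) (by fun_prop)
    · fun_prop

theorem pt_upTo {β : Type} [PEnc β] (D : ℕ) {l : α → List β} (hl : PolyTime l) :
    PolyTime (fun x => upTo D (l x)) := by
  induction D with
  | zero => exact PolyTime.const _
  | succ D ih =>
    simp only [upTo]
    refine PolyTime.cons (PolyTime.const _) (PolyTime.flatMap hl ?_)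
    refine PolyTime.map (l := fun p : α × β => upTo D (l p.1))
      (g := fun (p : α × β) y => p.2 :: y) ?_ ?_
    · exact ih.comp (f := fun p : α × β => p.1) (by fun_prop)
    · fun_prop

theorem pt_finsum (k : ℕ) {f : ℕ → α → ℚ} (hf : ∀ i, PolyTime (f i)) :
    PolyTime (fun x => ∑ i ∈ Finset.range k, f i x) := by
  induction k with
  | zero => simp only [Finset.range_zero, Finset.sum_empty]; exact PolyTime.const _
  | succ k ih =>
    simp only [Finset.sum_range_succ]
    exact PolyTime.rat_add ih (hf k)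

theorem pt_score (k : ℕ) {T : α → List (List (List ℚ))} {Θ : α → List (ℕ × ℕ)}
    {a : α → List ℕ} {e : α → ℕ × ℕ} (hT : PolyTime T) (hΘ : PolyTime Θ) (ha : PolyTime a)
    (he : PolyTime e) : PolyTime (fun x => score k (getw (T x)) (Θ x) (a x) (e x)) := by
  unfold score
  refine pt_finsum k fun i => ?_
  refine PolyTime.rat_mul (PolyTime.natCast_rat (by fun_prop)) (PolyTime.rat_div ?_ ?_)
  · exact pt_getw hT (PolyTime.const i) he
  · exact pt_getw hT (PolyTime.const i) (by fun_prop)

theorem pt_clash {e f : α → ℕ × ℕ} (he : PolyTime e) (hf : PolyTime f) :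
    PolyTime (fun x => clash (e x) (f x)) := by
  unfold clash
  fun_prop

theorem pt_best {s : α → ℕ × ℕ → ℚ} {E : α → List (ℕ × ℕ)}
    (hs : PolyTime (fun p : α × (ℕ × ℕ) => s p.1 p.2)) (hE : PolyTime E) :
    PolyTime (fun x => best (s x) (E x)) := by
  unfold best
  refine PolyTime.foldl (s := fun _ => none) (h := fun x o e => o.elim (some e)
    (fun f => if s x f < s x e then some e else some f)) hE (PolyTime.const none) ?_
    (B := fun x => size (E x) + 1) (hE.pbd.add (PBd.const 1)) ?_
  · refine PolyTime.option_elim (o := fun q : α × Option (ℕ × ℕ) × (ℕ × ℕ) => q.2.1)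
      (f := fun q => some q.2.2)
      (g := fun q f => if s q.1 f < s q.1 q.2.2 then some q.2.2 else some f)
      (by fun_prop) (by fun_prop) ?_
    refine PolyTime.ite (PolyTime.rat_decide_lt ?_ ?_) (by fun_prop) (by fun_prop)
    · exact hs.comp (f := fun p : (α × Option (ℕ × ℕ) × (ℕ × ℕ)) × (ℕ × ℕ) => (p.1.1, p.2))
        (by fun_prop)
    · exact hs.comp (f := fun p : (α × Option (ℕ × ℕ) × (ℕ × ℕ)) × (ℕ × ℕ) =>
        (p.1.1, p.1.2.2)) (by fun_prop)
  · intro x i
    have h1 : (((E x).take i).foldl (fun o e => o.elim (some e)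
        (fun f => if s x f < s x e then some e else some f)) none) = best (s x) ((E x).take i) :=
      rfl
    rw [h1]
    rcases best_spec (s x) ((E x).take i) with ⟨-, h⟩ | ⟨g, h, hg, -⟩
    · rw [h]; simp
    · rw [h, size_some]
      have := size_mem_le (List.mem_of_mem_take hg)
      omega

theorem pt_gstep {s : α → ℕ × ℕ → ℚ} (hs : PolyTime (fun p : α × (ℕ × ℕ) => s p.1 p.2)) :
    PolyTime (fun p : α × (List (ℕ × ℕ) × List (ℕ × ℕ)) => gstep (s p.1) p.2) := by
  unfold gstep
  refine PolyTime.option_elim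
    (o := fun p : α × (List (ℕ × ℕ) × List (ℕ × ℕ)) => best (s p.1) p.2.1)
    (f := fun p => p.2)
    (g := fun p e => (p.2.1.filter (fun f => !clash e f), e :: p.2.2)) ?_ (by fun_prop) ?_
  · refine pt_best (s := fun p : α × (List (ℕ × ℕ) × List (ℕ × ℕ)) => s p.1)
      (E := fun p => p.2.1) ?_ (by fun_prop)
    exact hs.comp (f := fun p : (α × (List (ℕ × ℕ) × List (ℕ × ℕ))) × (ℕ × ℕ) => (p.1.1, p.2))
      (by fun_prop)
  · refine PolyTime.prodMk ?_ (by fun_prop)
    refine PolyTime.filter
      (l := fun q : (α × (List (ℕ × ℕ) × List (ℕ × ℕ))) × (ℕ × ℕ) => q.1.2.1)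
      (p := fun q f => !clash q.2 f) (by fun_prop) ?_
    exact (pt_clash (by fun_prop) (by fun_prop)).not

theorem pt_greedy {s : α → ℕ × ℕ → ℚ} {E : α → List (ℕ × ℕ)}
    (hs : PolyTime (fun p : α × (ℕ × ℕ) => s p.1 p.2)) (hE : PolyTime E) :
    PolyTime (fun x => greedy (s x) (E x)) := by
  unfold greedy
  refine PolyTime.snd ?_
  refine PolyTime.iterate (f := fun x => gstep (s x)) (n := fun x => (E x).length)
    (g := fun x => (E x, [])) (B := fun x => 2 * size (E x) + 1 +
      size (E x) * (2 * size (E x) + 1)) (pt_gstep hs) hE.length (pbd_length hE)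
    (by fun_prop) ?_ ?_
  · exact (((PBd.const 2).mul hE.pbd).add (PBd.const 1)).add
      (hE.pbd.mul (((PBd.const 2).mul hE.pbd).add (PBd.const 1)))
  · intro x i hi
    have key : ∀ i, ((gstep (s x))^[i] (E x, [])).1.Sublist (E x) ∧
        (∀ e ∈ ((gstep (s x))^[i] (E x, [])).2, e ∈ E x) ∧
        ((gstep (s x))^[i] (E x, [])).2.length ≤ i := by
      intro i
      induction i with
      | zero => simp
      | succ i ih =>
        rw [Function.iterate_succ_apply']
        obtain ⟨h1, h2, h3⟩ := ih
        generalize (gstep (s x))^[i] (E x, []) = y at h1 h2 h3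
        rcases best_spec (s x) y.1 with ⟨-, h⟩ | ⟨g, h, hg, -⟩
        · unfold gstep
          rw [h]
          exact ⟨h1, h2, by simp only [Option.elim_none]; omega⟩
        · unfold gstep
          rw [h]
          simp only [Option.elim_some]
          refine ⟨List.filter_sublist.trans h1, ?_, by simp only [List.length_cons]; omega⟩
          intro e he
          rcases List.mem_cons.1 he with rfl | he
          · exact h1.subset hg
          · exact h2 e he
    obtain ⟨h1, h2, h3⟩ := key i
    rw [size_prod]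
    have h4 := size_sublist h1
    have h5 := size_le_of_forall (B := size (E x)) (fun e he => size_mem_le (h2 e he))
    have h6 := length_le_size (E x)
    have h7 : ((gstep (s x))^[i] (E x, [])).2.length * (2 * size (E x) + 1) ≤
        size (E x) * (2 * size (E x) + 1) := Nat.mul_le_mul_right _ (by omega)
    omega

theorem pt_sel {p a b τ : α → ℕ} {M : α → List (ℕ × ℕ)} (hp : PolyTime p) (ha : PolyTime a)
    (hb : PolyTime b) (hτ : PolyTime τ) (hM : PolyTime M) :
    PolyTime (fun x => sel (p x) (a x) (b x) (τ x) (M x)) := by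
  unfold sel
  refine PolyTime.map (PolyTime.filter (by fun_prop) ?_) (by fun_prop)
  refine PolyTime.decide_lt (PolyTime.mod ?_ ?_) ?_ <;> fun_prop

theorem pt_merge {p a b τ : α → ℕ} {N M : α → List (ℕ × ℕ)} (hp : PolyTime p)
    (ha : PolyTime a) (hb : PolyTime b) (hτ : PolyTime τ) (hN : PolyTime N) (hM : PolyTime M) :
    PolyTime (fun x => merge (p x) (a x) (b x) (τ x) (N x) (M x)) := by
  unfold merge cleanup
  have hs := pt_sel hp ha hb hτ hM
  refine PolyTime.append (PolyTime.filter hN ?_) hs
  refine PolyTime.all (l := fun q : α × (ℕ × ℕ) => sel (p q.1) (a q.1) (b q.1) (τ q.1) (M q.1))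
    (p := fun q f => !clash f q.2) ?_ ?_
  · exact hs.comp (f := fun q : α × (ℕ × ℕ) => q.1) (by fun_prop)
  · exact (pt_clash (by fun_prop) (by fun_prop)).not

theorem isM_nodup {M : List (ℕ × ℕ)} (h : IsM M) : M.Nodup := by
  refine List.Pairwise.imp ?_ h
  rintro e f hef rfl
  rw [clash_self] at hef
  exact absurd hef (by simp)

theorem pt_run (k : ℕ) {p : α → ℕ} {T : α → List (List (List ℚ))} {Θ E : α → List (ℕ × ℕ)}
    {ph : α → List (List ℕ × ℕ × ℕ × ℕ)} (hp : PolyTime p) (hT : PolyTime T)
    (hΘ : PolyTime Θ) (hE : PolyTime E) (hph : PolyTime ph) :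
    PolyTime (fun x => run k (p x) (getw (T x)) (Θ x) (E x) (ph x)) := by
  have hstep : PolyTime (fun q : α × List (ℕ × ℕ) × (List ℕ × ℕ × ℕ × ℕ) =>
      merge (p q.1) q.2.2.2.1 q.2.2.2.2.1 q.2.2.2.2.2 q.2.1
        (greedy (score k (getw (T q.1)) (Θ q.1) q.2.2.1) (E q.1))) := by
    refine pt_merge (p := fun q : α × List (ℕ × ℕ) × (List ℕ × ℕ × ℕ × ℕ) => p q.1)
      (a := fun q => q.2.2.2.1) (b := fun q => q.2.2.2.2.1) (τ := fun q => q.2.2.2.2.2)
      (N := fun q => q.2.1)
      (M := fun q => greedy (score k (getw (T q.1)) (Θ q.1) q.2.2.1) (E q.1))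
      (by fun_prop) (by fun_prop) (by fun_prop) (by fun_prop) (by fun_prop) ?_
    refine pt_greedy (s := fun q : α × List (ℕ × ℕ) × (List ℕ × ℕ × ℕ × ℕ) =>
      score k (getw (T q.1)) (Θ q.1) q.2.2.1) (E := fun q => E q.1) ?_ (by fun_prop)
    exact pt_score k (T := fun p : (α × List (ℕ × ℕ) × (List ℕ × ℕ × ℕ × ℕ)) × (ℕ × ℕ) =>
      T p.1.1) (Θ := fun p => Θ p.1.1) (a := fun p => p.1.2.2.1) (e := fun p => p.2)
      (by fun_prop) (by fun_prop) (by fun_prop) (by fun_prop)
  unfold run
  refine PolyTime.foldl (s := fun _ : α => ([] : List (ℕ × ℕ)))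
    (h := fun (x : α) (N : List (ℕ × ℕ)) (y : List ℕ × ℕ × ℕ × ℕ) =>
      merge (p x) y.2.1 y.2.2.1 y.2.2.2 N
      (greedy (score k (getw (T x)) (Θ x) y.1) (E x))) hph (PolyTime.const _) hstep
    (B := fun x => size (E x) * (2 * size (E x) + 1)) ?_ ?_
  · exact hE.pbd.mul (((PBd.const 2).mul hE.pbd).add (PBd.const 1))
  · intro x i
    obtain ⟨h1, h2⟩ := run_isM k (p x) (getw (T x)) (Θ x) (E x) ((ph x).take i)
    have h3 : (((ph x).take i).foldl (fun N y => merge (p x) y.2.1 y.2.2.1 y.2.2.2 N
      (greedy (score k (getw (T x)) (Θ x) y.1) (E x))) []) =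
      run k (p x) (getw (T x)) (Θ x) (E x) ((ph x).take i) := rfl
    rw [h3]
    refine (size_le_of_forall (B := size (E x)) (fun e he => size_mem_le (h2 e he))).trans ?_
    refine Nat.mul_le_mul_right _ ?_
    have h4 : (run k (p x) (getw (T x)) (Θ x) (E x) ((ph x).take i)).length ≤ (E x).length :=
      (List.subperm_of_subset (isM_nodup h1) h2).length_le
    exact h4.trans (length_le_size _)

theorem pt_avail (k : ℕ) {n : α → ℕ} {T : α → List (List (List ℚ))} {L : α → List ℕ}
    {Θ : α → List (ℕ × ℕ)} (hn : PolyTime n) (hnb : PBd n) (hT : PolyTime T) (hL : PolyTime L)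
    (hΘ : PolyTime Θ) : PolyTime (fun x => avail k (n x) (getw (T x)) (L x) (Θ x)) := by
  unfold avail
  refine PolyTime.filter (PolyTime.product (PolyTime.range hn hnb) (PolyTime.range hn hnb)) ?_
  refine PolyTime.and (by fun_prop) ?_
  refine PolyTime.all (l := fun _ : α × (ℕ × ℕ) => List.range k)
    (p := fun q i => decide (getw (T q.1) i q.2 ≤ getw (T q.1) i ((Θ q.1).getD i (0, 0))))
    (PolyTime.const _) ?_
  refine PolyTime.rat_decide_le ?_ ?_
  · exact pt_getw (by fun_prop) (by fun_prop) (by fun_prop)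
  · exact pt_getw (by fun_prop) (by fun_prop) (by fun_prop)

theorem pt_flat {N : α → List (ℕ × ℕ)} (hN : PolyTime N) : PolyTime (fun x => flat (N x)) := by
  unfold flat
  fun_prop

theorem pt_tour {n : α → ℕ} {L : α → List ℕ} {N : α → List (ℕ × ℕ)} (hn : PolyTime n)
    (hnb : PBd n) (hL : PolyTime L) (hN : PolyTime N) :
    PolyTime (fun x => tour (n x) (L x) (N x)) := by
  have h1 : PolyTime (fun x => L x ++ flat (N x)) := PolyTime.append hL (pt_flat hN)
  unfold tour
  refine PolyTime.append h1 (PolyTime.filter (PolyTime.range hn hnb) ?_)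
  refine PolyTime.not (PolyTime.decide_mem (by fun_prop) ?_)
  exact h1.comp (f := fun q : α × ℕ => q.1) (by fun_prop)

theorem pt_candidate (k : ℕ) {T : α → List (List (List ℚ))}
    {g : α → ℕ × List ℕ × List (ℕ × ℕ) × List (List ℕ × ℕ × ℕ × ℕ)} (hT : PolyTime T)
    (hg : PolyTime g) : PolyTime (fun x => candidate k (T x) (g x)) := by
  unfold candidate
  refine pt_tour hT.length (pbd_length hT) (by fun_prop) ?_
  refine pt_run k (by fun_prop) hT (by fun_prop) ?_ (by fun_prop)
  exact pt_avail k hT.length (pbd_length hT) hT (by fun_prop) (by fun_prop)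

theorem pt_guesses (k : ℕ) {n : α → ℕ} (hn : PolyTime n) (hnb : PBd n) :
    PolyTime (fun x => guesses k (n x)) := by
  have h1 : PolyTime (fun x => List.range (n x)) := PolyTime.range hn hnb
  have h2 : PolyTime (fun x => List.range (2 * n x + 3)) :=
    PolyTime.range (by fun_prop) (((PBd.const 2).mul hnb).add (PBd.const 3))
  have h3 : PolyTime (fun x => List.range (n x + 1)) :=
    PolyTime.range (by fun_prop) (hnb.add (PBd.const 1))
  have h4 : PolyTime (fun x => List.range (2 * k * n x + 1)) :=
    PolyTime.range (by fun_prop) (((PBd.const (2 * k)).mul hnb).add (PBd.const 1))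
  unfold guesses phases
  refine PolyTime.product h2 (PolyTime.product (pt_upTo _ h1)
    (PolyTime.product (pt_tuples _ (PolyTime.product h3 h3)) (pt_tuples _ ?_)))
  exact PolyTime.product (pt_tuples _ h4) (PolyTime.product h2 (PolyTime.product h2 h2))

theorem pt_valid {n : α → ℕ} {c : α → List ℕ} (hn : PolyTime n) (hnb : PBd n)
    (hc : PolyTime c) : PolyTime (fun x => valid (n x) (c x)) := by
  unfold valid
  refine PolyTime.and (by fun_prop) (PolyTime.all (PolyTime.range hn hnb) (by fun_prop))

theorem pt_alg (k : ℕ) : PolyTime (alg k) := by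
  have hlen : PolyTime (fun T : List (List (List ℚ)) => T.length) := PolyTime.length PolyTime.id
  have hlenb : PBd (fun T : List (List (List ℚ)) => T.length) := pbd_length PolyTime.id
  have h1 : PolyTime (fun T : List (List (List ℚ)) => guesses k T.length) :=
    pt_guesses k hlen hlenb
  have h2 : PolyTime (fun q : List (List (List ℚ)) ×
      (ℕ × List ℕ × List (ℕ × ℕ) × List (List ℕ × ℕ × ℕ × ℕ)) => candidate k q.1 q.2) :=
    pt_candidate k PolyTime.fst' PolyTime.snd'
  have h3 : PolyTime (fun T : List (List (List ℚ)) =>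
      (guesses k T.length).map (candidate k T)) := PolyTime.map h1 h2
  have h4 : PolyTime (fun q : List (List (List ℚ)) × List ℕ => valid q.1.length q.2) :=
    pt_valid (hlen.comp (f := fun q : List (List (List ℚ)) × List ℕ => q.1) PolyTime.fst')
      (hlenb.comp (f := fun q : List (List (List ℚ)) × List ℕ => q.1) PolyTime.fst')
      PolyTime.snd'
  exact PolyTime.filter (p := fun (T : List (List (List ℚ))) c => valid T.length c) h3 h4

end poly

end Pool.Agent.Helper83.MaxTSP
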