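import Mathlib

/-! Pairwise independent hashing: the family `j ↦ (a * j + b) % p < τ` with `p` prime. -/

namespace Pool.Agent.Helper83.MaxTSP

open Finset

theorem hash_pair (p : ℕ) (hp : p.Prime) (j j' : ℕ) (hj : j < p) (hj' : j' < p) (hne : j ≠ j')
    (F : ℕ → ℕ → ℝ) :
    ∑ x ∈ range p ×ˢ range p, F ((x.1 * j + x.2) % p) ((x.1 * j' + x.2) % p) =
      ∑ x ∈ range p ×ˢ range p, F x.1 x.2 := by
  have hp0 : 0 < p := hp.pos
  have hmaps : Set.MapsTo (fun x : ℕ × ℕ => ((x.1 * j + x.2) % p, (x.1 * j' + x.2) % p))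
      (range p ×ˢ range p : Finset (ℕ × ℕ)) (range p ×ˢ range p : Finset (ℕ × ℕ)) := by
    intro x _
    simp only [coe_product, coe_range, Set.mem_prod, Set.mem_Iio]
    exact ⟨Nat.mod_lt _ hp0, Nat.mod_lt _ hp0⟩
  have hinj : Set.InjOn (fun x : ℕ × ℕ => ((x.1 * j + x.2) % p, (x.1 * j' + x.2) % p))
      (range p ×ˢ range p : Finset (ℕ × ℕ)) := by
    rintro ⟨a, b⟩ hx ⟨a', b'⟩ hy h
    simp only [coe_product, coe_range, Set.mem_prod, Set.mem_Iio, Prod.mk.injEq] at hx hy h
    haveI : Fact p.Prime := ⟨hp⟩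
    have h1 : ((a * j + b : ℕ) : ZMod p) = ((a' * j + b' : ℕ) : ZMod p) :=
      (ZMod.natCast_eq_natCast_iff' _ _ _).2 h.1
    have h2 : ((a * j' + b : ℕ) : ZMod p) = ((a' * j' + b' : ℕ) : ZMod p) :=
      (ZMod.natCast_eq_natCast_iff' _ _ _).2 h.2
    push_cast at h1 h2
    have hjj : (j : ZMod p) - (j' : ZMod p) ≠ 0 := by
      intro h0
      have := sub_eq_zero.1 h0
      rw [ZMod.natCast_eq_natCast_iff', Nat.mod_eq_of_lt hj, Nat.mod_eq_of_lt hj'] at this
      exact hne this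
    have h3 : ((a : ZMod p) - a') * ((j : ZMod p) - j') = 0 := by linear_combination h1 - h2
    have h4 : (a : ZMod p) = a' := by
      rcases mul_eq_zero.1 h3 with h | h
      · exact sub_eq_zero.1 h
      · exact absurd h hjj
    have h5 : (b : ZMod p) = b' := by rw [h4] at h1; exact add_left_cancel h1
    rw [ZMod.natCast_eq_natCast_iff'] at h4 h5
    rw [Nat.mod_eq_of_lt hx.1, Nat.mod_eq_of_lt hy.1] at h4
    rw [Nat.mod_eq_of_lt hx.2, Nat.mod_eq_of_lt hy.2] at h5
    rw [h4, h5]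
  have hsurj : Set.SurjOn (fun x : ℕ × ℕ => ((x.1 * j + x.2) % p, (x.1 * j' + x.2) % p))
      (range p ×ˢ range p : Finset (ℕ × ℕ)) (range p ×ˢ range p : Finset (ℕ × ℕ)) :=
    Finset.surjOn_of_injOn_of_card_le _ hmaps hinj le_rfl
  exact Finset.sum_nbij _ hmaps hinj hsurj (fun x _ => rfl)

theorem hash_single (p : ℕ) (hp : 0 < p) (a j : ℕ) (F : ℕ → ℝ) :
    ∑ b ∈ range p, F ((a * j + b) % p) = ∑ b ∈ range p, F b := by
  have hmaps : Set.MapsTo (fun b : ℕ => (a * j + b) % p) (range p : Finset ℕ)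
      (range p : Finset ℕ) := by
    intro x _
    simp only [coe_range, Set.mem_Iio]
    exact Nat.mod_lt _ hp
  have hinj : Set.InjOn (fun b : ℕ => (a * j + b) % p) (range p : Finset ℕ) := by
    intro b hb b' hb' h
    simp only [coe_range, Set.mem_Iio] at hb hb' h
    have h1 : b ≡ b' [MOD p] := Nat.ModEq.add_left_cancel' (a * j) h
    exact Nat.ModEq.eq_of_lt_of_lt h1 hb hb'
  exact Finset.sum_nbij _ hmaps hinj
    (Finset.surjOn_of_injOn_of_card_le _ hmaps hinj le_rfl) (fun x _ => rfl)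

/-- centred indicator -/
noncomputable def cind (p τ x : ℕ) : ℝ := (if x < τ then 1 else 0) - (τ : ℝ) / p

theorem sum_cind (p τ : ℕ) (hp : 0 < p) (hτ : τ ≤ p) : ∑ x ∈ range p, cind p τ x = 0 := by
  unfold cind
  rw [Finset.sum_sub_distrib, Finset.sum_const, card_range, nsmul_eq_mul, ← Finset.sum_filter,
    Finset.sum_const]
  have : ((range p).filter (fun x => x < τ)) = range τ := by
    ext x; simp only [mem_filter, mem_range]; omega
  rw [this, card_range, nsmul_eq_mul]
  have hp' : (p : ℝ) ≠ 0 := by positivity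
  field_simp
  ring

theorem sum_cind_sq (p τ : ℕ) (hp : 0 < p) (hτ : τ ≤ p) :
    ∑ x ∈ range p, cind p τ x ^ 2 ≤ τ := by
  have h1 : ∀ x, cind p τ x ^ 2 = (if x < τ then 1 else 0) - 2 * ((τ : ℝ) / p) * cind p τ x
      - ((τ : ℝ) / p) ^ 2 := by
    intro x
    unfold cind
    split_ifs <;> ring
  rw [Finset.sum_congr rfl (fun x _ => h1 x), Finset.sum_sub_distrib, Finset.sum_sub_distrib,
    ← Finset.mul_sum, sum_cind p τ hp hτ, ← Finset.sum_filter, Finset.sum_const, Finset.sum_const]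
  have : ((range p).filter (fun x => x < τ)) = range τ := by
    ext x; simp only [mem_filter, mem_range]; omega
  rw [this, card_range, nsmul_eq_mul, nsmul_eq_mul]
  have : 0 ≤ (((range p).card : ℕ) : ℝ) * ((τ : ℝ) / p) ^ 2 := by positivity
  linarith

theorem second_moment (p : ℕ) (hp : p.Prime) (τ : ℕ) (hτ : τ ≤ p) (m : ℕ) (hm : m ≤ p)
    (g : ℕ → ℝ) :
    ∑ x ∈ range p ×ˢ range p, (∑ j ∈ range m, g j * cind p τ ((x.1 * j + x.2) % p)) ^ 2 ≤
      p * τ * ∑ j ∈ range m, g j ^ 2 := by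
  have hp0 : 0 < p := hp.pos
  have h1 : ∀ x : ℕ × ℕ, (∑ j ∈ range m, g j * cind p τ ((x.1 * j + x.2) % p)) ^ 2 =
      ∑ j ∈ range m, ∑ j' ∈ range m, (g j * g j') *
        (cind p τ ((x.1 * j + x.2) % p) * cind p τ ((x.1 * j' + x.2) % p)) := by
    intro x
    rw [sq, Finset.sum_mul_sum]
    refine Finset.sum_congr rfl fun j _ => Finset.sum_congr rfl fun j' _ => by ring
  rw [Finset.sum_congr rfl (fun x _ => h1 x), Finset.sum_comm]
  have h2 : ∀ j ∈ range m, ∑ x ∈ range p ×ˢ range p, ∑ j' ∈ range m, (g j * g j') *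
        (cind p τ ((x.1 * j + x.2) % p) * cind p τ ((x.1 * j' + x.2) % p)) ≤
        p * τ * g j ^ 2 := by
    intro j hj
    rw [Finset.sum_comm, ← Finset.add_sum_erase _ _ hj]
    have h3 : ∑ j' ∈ (range m).erase j, ∑ x ∈ range p ×ˢ range p, (g j * g j') *
        (cind p τ ((x.1 * j + x.2) % p) * cind p τ ((x.1 * j' + x.2) % p)) = 0 := by
      refine Finset.sum_eq_zero fun j' hj' => ?_
      rw [mem_erase] at hj'
      rw [← Finset.mul_sum]
      have := hash_pair p hp j j' (lt_of_lt_of_le (mem_range.1 hj) hm)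
        (lt_of_lt_of_le (mem_range.1 hj'.2) hm) (Ne.symm hj'.1)
        (fun x y => cind p τ x * cind p τ y)
      rw [this, Finset.sum_product, ]
      simp only [← Finset.mul_sum, ← Finset.sum_mul]
      rw [sum_cind p τ hp0 hτ]
      simp
    rw [h3, add_zero, ← Finset.mul_sum]
    have h4 : ∑ x ∈ range p ×ˢ range p, cind p τ ((x.1 * j + x.2) % p) *
        cind p τ ((x.1 * j + x.2) % p) ≤ p * τ := by
      rw [Finset.sum_product]
      have : ∀ a ∈ range p, ∑ b ∈ range p, cind p τ (((a, b).1 * j + (a, b).2) % p) *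
        cind p τ (((a, b).1 * j + (a, b).2) % p) ≤ τ := by
        intro a _
        rw [hash_single p hp0 a j (fun x => cind p τ x * cind p τ x)]
        have := sum_cind_sq p τ hp0 hτ
        simp only [sq] at this
        exact this
      refine (Finset.sum_le_sum this).trans ?_
      rw [Finset.sum_const, card_range, nsmul_eq_mul]
    have h5 : 0 ≤ g j * g j := mul_self_nonneg _
    nlinarith
  refine (Finset.sum_le_sum h2).trans ?_
  rw [← Finset.mul_sum]

/-- There is a good hash function for `k` linear functionals simultaneously. -/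
theorem exists_hash (k p : ℕ) (hp : p.Prime) (τ : ℕ) (hτ : τ ≤ p) (m : ℕ) (hm : m ≤ p)
    (g : Fin k → ℕ → ℝ) :
    ∃ a < p, ∃ b < p, ∀ i, (∑ j ∈ range m, g i j * cind p τ ((a * j + b) % p)) ^ 2 ≤
      k * ((τ : ℝ) / p) * ∑ j ∈ range m, g i j ^ 2 := by
  have hp0 : 0 < p := hp.pos
  have hpR : (0 : ℝ) < p := by exact_mod_cast hp0
  set G : Fin k → ℝ := fun i => ((τ : ℝ) / p) * ∑ j ∈ range m, g i j ^ 2 with hG
  set Q : Fin k → ℕ × ℕ → ℝ := fun i x =>
    (∑ j ∈ range m, g i j * cind p τ ((x.1 * j + x.2) % p)) ^ 2 with hQ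
  have hGnn : ∀ i, 0 ≤ G i := fun i => by
    simp only [hG]
    exact mul_nonneg (by positivity) (Finset.sum_nonneg fun j _ => sq_nonneg _)
  have hsm : ∀ i, ∑ x ∈ range p ×ˢ range p, Q i x ≤ p * p * G i := by
    intro i
    refine (second_moment p hp τ hτ m hm (g i)).trans (le_of_eq ?_)
    simp only [hG]
    field_simp
  have hQnn : ∀ i x, 0 ≤ Q i x := fun i x => sq_nonneg _
  have havg : ∑ x ∈ range p ×ˢ range p, ∑ i, Q i x / G i ≤
      ∑ x ∈ range p ×ˢ range p, (k : ℝ) := by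
    rw [Finset.sum_comm, Finset.sum_const, card_product, card_range, nsmul_eq_mul]
    have : ∀ i ∈ (Finset.univ : Finset (Fin k)), ∑ x ∈ range p ×ˢ range p, Q i x / G i ≤
        (p : ℝ) * p := by
      intro i _
      rw [← Finset.sum_div]
      rcases (hGnn i).eq_or_lt with h0 | h0
      · rw [← h0, div_zero]; positivity
      · rw [div_le_iff₀ h0]; exact hsm i
    refine (Finset.sum_le_sum this).trans (le_of_eq ?_)
    rw [Finset.sum_const, Finset.card_univ, Fintype.card_fin, nsmul_eq_mul]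
    push_cast
    ring
  obtain ⟨x, hx, hx2⟩ := Finset.exists_le_of_sum_le
    (by exact ⟨(0, 0), by simp [hp0]⟩) havg
  rw [mem_product, mem_range, mem_range] at hx
  refine ⟨x.1, hx.1, x.2, hx.2, fun i => ?_⟩
  have h1 : Q i x / G i ≤ k := le_trans
    (Finset.single_le_sum (f := fun i => Q i x / G i)
      (fun i _ => div_nonneg (hQnn i x) (hGnn i)) (Finset.mem_univ i)) hx2
  have h2 : Q i x ≤ k * G i := by
    rcases (hGnn i).eq_or_lt with h0 | h0
    · have h3 := hsm i
      rw [← h0, mul_zero] at h3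
      have h4 : Q i x ≤ ∑ x ∈ range p ×ˢ range p, Q i x :=
        Finset.single_le_sum (f := fun x => Q i x) (fun x _ => hQnn i x)
          (by rw [mem_product, mem_range, mem_range]; exact hx)
      rw [← h0, mul_zero]
      exact h4.trans h3
    · rwa [div_le_iff₀ h0] at h1
  simp only [hG, hQ] at h2
  rw [mul_assoc]
  exact h2

end Pool.Agent.Helper83.MaxTSP
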