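import Mathlib

/-! A minimax statement with small support (separation plus the theorem of Caratheodory). -/

namespace Pool.Agent.Helper83.MaxTSP

open Finset

theorem minimax {k : ℕ} {ι : Type} (S : Finset ι) (V : ι → Fin k → ℝ) (r : Fin k → ℝ)
    (h : ∀ α : Fin k → ℝ, (∀ i, 0 ≤ α i) →
      ∃ a ∈ S, ∑ i, α i * r i ≤ ∑ i, α i * V a i) :
    ∃ (a : Fin (k + 1) → ι) (x : Fin (k + 1) → ℝ), (∀ t, a t ∈ S) ∧ (∀ t, 0 ≤ x t) ∧
      ∑ t, x t = 1 ∧ ∀ i, r i ≤ ∑ t, x t * V (a t) i := by
  classical
  obtain ⟨a₀, ha₀, -⟩ := h 0 (fun _ => le_rfl)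
  set C : Set (Fin k → ℝ) := convexHull ℝ (V '' (S : Set ι)) with hC
  have hfin : (V '' (S : Set ι)).Finite := S.finite_toSet.image V
  -- there is a point of the hull above `r`
  obtain ⟨y, hyC, hyr⟩ : ∃ y ∈ C, r ≤ y := by
    by_contra hcon
    push Not at hcon
    have hdisj : Disjoint C (Set.Ici r) := by
      rw [Set.disjoint_left]
      intro y hy hy'
      exact hcon y hy hy'
    obtain ⟨f, u, v, h1, h2, h3⟩ := geometric_hahn_banach_compact_closed (convex_convexHull ℝ _)
      (hfin.isCompact_convexHull ℝ) (convex_Ici r) isClosed_Ici hdisj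
    set α : Fin k → ℝ := fun i => f (Pi.single i 1) with hα
    have hf : ∀ y : Fin k → ℝ, f y = ∑ i, α i * y i := by
      intro y
      have hy : y = ∑ i, y i • (Pi.single i (1 : ℝ) : Fin k → ℝ) := by
        funext j
        rw [Finset.sum_apply]
        simp [Pi.single_apply]
      conv_lhs => rw [hy]
      rw [map_sum]
      refine Finset.sum_congr rfl fun i _ => ?_
      rw [map_smul, smul_eq_mul, mul_comm]
    have hα0 : ∀ i, 0 ≤ α i := by
      intro i
      by_contra hneg
      push Not at hneg
      have hr : v < f r := h3 r (Set.mem_Ici.2 le_rfl)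
      set s : ℝ := (f r - v) / (-α i) with hs
      have hs0 : 0 ≤ s := div_nonneg (by linarith) (by linarith)
      have h4 := h3 (r + s • Pi.single i 1) (by
        rw [Set.mem_Ici]
        intro j
        simp only [Pi.add_apply, Pi.smul_apply, smul_eq_mul]
        have : 0 ≤ (Pi.single i (1 : ℝ) : Fin k → ℝ) j := by
          by_cases hij : j = i
          · subst hij; simp
          · simp [hij]
        nlinarith)
      rw [map_add, map_smul, smul_eq_mul] at h4
      have h5 : s * α i = -(f r - v) := by
        rw [hs]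
        field_simp
        have : α i ≠ 0 := ne_of_lt hneg
        field_simp
      have h6 : f (Pi.single i 1) = α i := rfl
      rw [h6, h5] at h4
      linarith
    obtain ⟨a, ha, hle⟩ := h α hα0
    rw [← hf, ← hf] at hle
    have h4 : f (V a) < u := h1 _ (subset_convexHull ℝ _ (Set.mem_image_of_mem V ha))
    have h5 : v < f r := h3 r (Set.mem_Ici.2 le_rfl)
    linarith
  obtain ⟨κ, hκ, z, w, hz, haff, hw, hw1, hzy⟩ := eq_pos_convex_span_of_mem_convexHull hyC
  have hcard : Fintype.card κ ≤ k + 1 := by
    refine haff.card_le_finrank_succ.trans ?_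
    have : Module.finrank ℝ (vectorSpan ℝ (Set.range z)) ≤ Module.finrank ℝ (Fin k → ℝ) :=
      Submodule.finrank_le _
    rw [Module.finrank_fin_fun] at this
    omega
  -- choose preimages
  have hpre : ∀ c : κ, ∃ a ∈ S, V a = z c := by
    intro c
    obtain ⟨a, ha, hac⟩ := hz (Set.mem_range_self c)
    exact ⟨a, ha, hac⟩
  choose b hbS hbV using hpre
  obtain ⟨e⟩ : Nonempty (κ ↪ Fin (k + 1)) :=
    Function.Embedding.nonempty_of_card_le (by simpa using hcard)
  refine ⟨fun t => if h : ∃ c, e c = t then b h.choose else a₀,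
    fun t => if h : ∃ c, e c = t then w h.choose else 0, ?_, ?_, ?_, ?_⟩
  · intro t
    dsimp only
    split_ifs with h
    · exact hbS _
    · exact ha₀
  · intro t
    dsimp only
    split_ifs with h
    · exact (hw _).le
    · exact le_rfl
  · rw [← hw1]
    symm
    refine Finset.sum_of_injOn e e.injective.injOn (fun _ _ => by simp) ?_ ?_
    · intro t _ ht
      rw [dif_neg]
      intro hc
      apply ht
      obtain ⟨c, hc⟩ := hc
      exact ⟨c, by simp, hc⟩
    · intro c _
      have hex : ∃ c', e c' = e c := ⟨c, rfl⟩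
      rw [dif_pos hex, e.injective hex.choose_spec]
  · intro i
    refine (hyr i).trans (le_of_eq ?_)
    rw [← hzy, Finset.sum_apply]
    refine Finset.sum_of_injOn e e.injective.injOn (fun _ _ => by simp) ?_ ?_
    · intro t _ ht
      dsimp only
      rw [dif_neg, zero_mul]
      intro hc
      apply ht
      obtain ⟨c, hc⟩ := hc
      exact ⟨c, by simp, hc⟩
    · intro c _
      have hex : ∃ c', e c' = e c := ⟨c, rfl⟩
      simp only [dif_pos hex, Pi.smul_apply, smul_eq_mul]
      rw [e.injective hex.choose_spec, hbV]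

end Pool.Agent.Helper83.MaxTSP
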