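import Pool.Agent.Helper83.MaxTSP.Match
import Pool.Agent.Helper83.MaxTSP.Minimax

/-! The light part: a short sequence of guesses leads to a good matching. -/

namespace Pool.Agent.Helper83.MaxTSP

/-- all lists of length `D` with entries in `l` -/
def tuples {β : Type} : ℕ → List β → List (List β)
  | 0, _ => [[]]
  | D + 1, l => l.flatMap (fun x => (tuples D l).map (fun y => x :: y))

theorem mem_tuples {β : Type} (D : ℕ) (l : List β) (x : List β) :
    x ∈ tuples D l ↔ x.length = D ∧ ∀ y ∈ x, y ∈ l := by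
  induction D generalizing x with
  | zero => simp only [tuples, List.mem_singleton, List.length_eq_zero_iff]; constructor
            · rintro rfl; simp
            · exact fun h => h.1
  | succ D ih =>
    simp only [tuples, List.mem_flatMap, List.mem_map]
    constructor
    · rintro ⟨a, ha, y, hy, rfl⟩
      obtain ⟨h1, h2⟩ := (ih y).1 hy
      refine ⟨by simp [h1], ?_⟩
      intro z hz
      rcases List.mem_cons.1 hz with rfl | hz
      · exact ha
      · exact h2 z hz
    · rintro ⟨h1, h2⟩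
      cases x with
      | nil => simp at h1
      | cons a y =>
        exact ⟨a, h2 a (by simp), y, (ih y).2 ⟨by simpa using h1, fun z hz => h2 z (by simp [hz])⟩,
          rfl⟩

/-- score of an edge with respect to the integer coefficients `a` and the scaling edges `Θ` -/
def score (k : ℕ) (w : ℕ → ℕ × ℕ → ℚ) (Θ : List (ℕ × ℕ)) (a : List ℕ) (e : ℕ × ℕ) : ℚ :=
  ∑ i ∈ Finset.range k, (a.getD i 0 : ℚ) * (w i e / w i (Θ.getD i (0, 0)))

/-- the greedy matchings merged one after the other -/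
def run (k p : ℕ) (w : ℕ → ℕ × ℕ → ℚ) (Θ : List (ℕ × ℕ)) (E : List (ℕ × ℕ))
    (ph : List (List ℕ × ℕ × ℕ × ℕ)) : List (ℕ × ℕ) :=
  ph.foldl (fun N x => merge p x.2.1 x.2.2.1 x.2.2.2 N (greedy (score k w Θ x.1) E)) []

theorem run_append (k p : ℕ) (w : ℕ → ℕ × ℕ → ℚ) (Θ : List (ℕ × ℕ)) (E : List (ℕ × ℕ))
    (ph : List (List ℕ × ℕ × ℕ × ℕ)) (x : List ℕ × ℕ × ℕ × ℕ) :
    run k p w Θ E (ph ++ [x]) =
      merge p x.2.1 x.2.2.1 x.2.2.2 (run k p w Θ E ph) (greedy (score k w Θ x.1) E) := by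
  unfold run
  rw [List.foldl_append]
  rfl

theorem run_isM (k p : ℕ) (w : ℕ → ℕ × ℕ → ℚ) (Θ : List (ℕ × ℕ)) (E : List (ℕ × ℕ))
    (ph : List (List ℕ × ℕ × ℕ × ℕ)) :
    IsM (run k p w Θ E ph) ∧ ∀ e ∈ run k p w Θ E ph, e ∈ E := by
  induction ph using List.reverseRecOn with
  | nil => exact ⟨List.Pairwise.nil, by simp [run]⟩
  | append_singleton ph x ih =>
    rw [run_append]
    obtain ⟨h1, h2, -⟩ := greedy_spec (score k w Θ x.1) E
    refine ⟨isM_merge ih.1 h2, fun e he => ?_⟩
    rcases mem_merge he with h | h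
    · exact ih.2 e h
    · exact h1 e h

theorem score_nonneg {k : ℕ} {w : ℕ → ℕ × ℕ → ℚ} (hw : ∀ i e, 0 ≤ w i e) (Θ : List (ℕ × ℕ))
    (a : List ℕ) (e : ℕ × ℕ) : 0 ≤ score k w Θ a e :=
  Finset.sum_nonneg fun i _ => mul_nonneg (Nat.cast_nonneg _) (div_nonneg (hw _ _) (hw _ _))

theorem wsum_cast (g : ℕ × ℕ → ℚ) (l : List (ℕ × ℕ)) :
    ((wsum g l : ℚ) : ℝ) = wsum (fun e => (g e : ℝ)) l := by
  induction l with
  | nil => simp
  | cons e l ih => rw [wsum_cons, wsum_cons, ← ih]; push_cast; rfl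

theorem isM_length {M : List (ℕ × ℕ)} (hM : IsM M) {n : ℕ} (h : ∀ e ∈ M, e.1 < n) :
    M.length ≤ n := by
  have h1 : (M.map Prod.fst).Nodup := by
    unfold List.Nodup
    rw [List.pairwise_map]
    refine List.Pairwise.imp ?_ hM
    intro e f hef
    exact ((clash_false_iff _ _).1 hef).1
  have h2 : (M.map Prod.fst).toFinset ⊆ Finset.range n := by
    intro v hv
    rw [List.mem_toFinset, List.mem_map] at hv
    obtain ⟨e, he, rfl⟩ := hv
    exact Finset.mem_range.2 (h e he)
  have h3 := Finset.card_le_card h2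
  rw [List.toFinset_card_of_nodup h1, List.length_map, Finset.card_range] at h3
  exact h3

theorem grid (k n : ℕ) (w : ℕ → ℕ × ℕ → ℚ) (hw : ∀ i e, 0 ≤ w i e) (Θ E R : List (ℕ × ℕ))
    (hE : ∀ e ∈ E, ∀ i < k, w i e ≤ w i (Θ.getD i (0, 0))) (hRE : ∀ e ∈ R, e ∈ E)
    (h1 : (R.map Prod.fst).Nodup) (h2 : (R.map Prod.snd).Nodup) (hRn : R.length ≤ n)
    (hΘ : ∀ i < k, Θ.getD i (0, 0) ∈ R) (α : Fin k → ℝ) (hα : ∀ i, 0 ≤ α i) :
    ∃ a ∈ (tuples k (List.range (2 * k * n + 1))).toFinset,
      ∑ i : Fin k, α i * (wsum (fun e => (w i e : ℝ)) R / 8) ≤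
        ∑ i : Fin k, α i * wsum (fun e => (w i e : ℝ)) (greedy (score k w Θ a) E) := by
  have hwr : ∀ (i : ℕ) e, (0 : ℝ) ≤ (w i e : ℝ) := fun i e => by exact_mod_cast hw i e
  set θ : Fin k → ℝ := fun i => (w i (Θ.getD i (0, 0)) : ℝ) with hθ
  have hθ0 : ∀ i, 0 ≤ θ i := fun i => hwr _ _
  have hEθ : ∀ e ∈ E, ∀ i : Fin k, (w i e : ℝ) ≤ θ i := fun e he i => by
    simp only [hθ]; exact_mod_cast hE e he i i.2
  have hRW : ∀ i : Fin k, wsum (fun e => (w i e : ℝ)) R ≤ n * θ i := by
    intro i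
    refine (wsum_le_length (θ := θ i) fun e he => hEθ e (hRE e he) i).trans ?_
    exact mul_le_mul_of_nonneg_right (by exact_mod_cast hRn) (hθ0 i)
  have hWnn : ∀ (i : Fin k) l, 0 ≤ wsum (fun e => (w i e : ℝ)) l :=
    fun i l => wsum_nonneg fun e _ => hwr _ _
  by_cases hall : ∀ i, α i * θ i = 0
  · refine ⟨List.replicate k 0, ?_, ?_⟩
    · rw [List.mem_toFinset, mem_tuples]
      refine ⟨by simp, fun y hy => ?_⟩
      rw [List.eq_of_mem_replicate hy]
      simp
    · have : ∑ i : Fin k, α i * (wsum (fun e => (w i e : ℝ)) R / 8) = 0 := by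
        refine Finset.sum_eq_zero fun i _ => ?_
        rcases mul_eq_zero.1 (hall i) with h | h
        · rw [h, zero_mul]
        · have h3 := hRW i
          rw [h, mul_zero] at h3
          have h4 := hWnn i R
          have h5 : wsum (fun e => (w i e : ℝ)) R = 0 := le_antisymm h3 h4
          rw [h5]; simp
      rw [this]
      exact Finset.sum_nonneg fun i _ => mul_nonneg (hα i) (hWnn i _)
  · push Not at hall
    obtain ⟨i1, hi1⟩ := hall
    obtain ⟨i0, -, hmax⟩ := Finset.exists_max_image (Finset.univ : Finset (Fin k))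
      (fun i => α i * θ i) ⟨i1, Finset.mem_univ _⟩
    set A : ℝ := α i0 * θ i0 with hA
    have hA0 : 0 < A := by
      have h3 : 0 < α i1 * θ i1 := lt_of_le_of_ne (mul_nonneg (hα _) (hθ0 _)) (Ne.symm hi1)
      exact h3.trans_le (hmax i1 (Finset.mem_univ _))
    have hk : 0 < k := i0.pos
    have hn : 0 < n := by
      have h3 : 0 < R.length := List.length_pos_of_mem (hΘ i0 i0.2)
      omega
    have hkR : (0 : ℝ) < k := by exact_mod_cast hk
    have hnR : (0 : ℝ) < n := by exact_mod_cast hn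
    set N : ℝ := 2 * k * n with hN
    have hN0 : 0 < N := by positivity
    set a : Fin k → ℕ := fun i => ⌊N * (α i * θ i) / A⌋₊ with ha
    have ha1 : ∀ i, A / N * a i ≤ α i * θ i := by
      intro i
      have h3 : (a i : ℝ) ≤ N * (α i * θ i) / A := Nat.floor_le (by
        have := mul_nonneg (hα i) (hθ0 i)
        positivity)
      calc A / N * a i ≤ A / N * (N * (α i * θ i) / A) :=
            mul_le_mul_of_nonneg_left h3 (by positivity)
        _ = α i * θ i := by field_simp
    have ha2 : ∀ i, α i * θ i - A / N ≤ A / N * a i := by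
      intro i
      have h3 : N * (α i * θ i) / A < a i + 1 := Nat.lt_floor_add_one _
      have h4 : A / N * (N * (α i * θ i) / A) ≤ A / N * (a i + 1) :=
        mul_le_mul_of_nonneg_left h3.le (by positivity)
      have h5 : A / N * (N * (α i * θ i) / A) = α i * θ i := by field_simp
      rw [h5] at h4
      linarith
    have haN : ∀ i, a i < 2 * k * n + 1 := by
      intro i
      have h3 : N * (α i * θ i) / A ≤ N := by
        rw [div_le_iff₀ hA0]
        exact mul_le_mul_of_nonneg_left (hmax i (Finset.mem_univ _)) hN0.le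
      have h4 : a i ≤ 2 * k * n := by
        have h5 : a i ≤ ⌊N⌋₊ := Nat.floor_le_floor h3
        have h6 : N = ((2 * k * n : ℕ) : ℝ) := by rw [hN]; push_cast; rfl
        rw [h6, Nat.floor_natCast] at h5
        exact h5
      omega
    refine ⟨List.ofFn a, ?_, ?_⟩
    · rw [List.mem_toFinset, mem_tuples]
      refine ⟨by simp, fun y hy => ?_⟩
      rw [List.mem_ofFn'] at hy
      obtain ⟨i, rfl⟩ := hy
      rw [List.mem_range]
      exact haN i
    · have hget : ∀ i : Fin k, (List.ofFn a).getD i 0 = a i := by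
        intro i
        rw [List.getD_eq_getElem _ _ (by simp)]
        simp
      have hscore : ∀ e, ((score k w Θ (List.ofFn a) e : ℚ) : ℝ) =
          ∑ i : Fin k, (a i : ℝ) * ((w i e : ℝ) / θ i) := by
        intro e
        unfold score
        rw [Finset.sum_range]
        push_cast
        refine Finset.sum_congr rfl fun i _ => ?_
        rw [hget i]
      set M := greedy (score k w Θ (List.ofFn a)) E with hM
      have hfour := greedy_four (score k w Θ (List.ofFn a))
        (fun e => score_nonneg hw Θ _ e) E R hRE h1 h2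
      rw [← hM] at hfour
      have hfourR : wsum (fun e => ∑ i : Fin k, (a i : ℝ) * ((w i e : ℝ) / θ i)) R ≤
          4 * wsum (fun e => ∑ i : Fin k, (a i : ℝ) * ((w i e : ℝ) / θ i)) M := by
        have h3 : ((wsum (score k w Θ (List.ofFn a)) R : ℚ) : ℝ) ≤
            ((4 * wsum (score k w Θ (List.ofFn a)) M : ℚ) : ℝ) := by exact_mod_cast hfour
        push_cast at h3
        rw [wsum_cast, wsum_cast] at h3
        simp only [hscore] at h3
        exact h3
      rw [wsum_finsum, wsum_finsum] at hfourR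
      have hM' : A / N * ∑ i : Fin k, wsum (fun e => (a i : ℝ) * ((w i e : ℝ) / θ i)) M ≤
          ∑ i : Fin k, α i * wsum (fun e => (w i e : ℝ)) M := by
        rw [Finset.mul_sum]
        refine Finset.sum_le_sum fun i _ => ?_
        rw [← wsum_mul, ← wsum_mul]
        refine wsum_le_wsum fun e _ => ?_
        rcases (hθ0 i).eq_or_lt with h3 | h3
        · rw [← h3, div_zero, mul_zero, mul_zero]
          exact mul_nonneg (hα i) (hwr _ _)
        · calc A / N * ((a i : ℝ) * ((w i e : ℝ) / θ i)) =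
                (A / N * a i) * ((w i e : ℝ) / θ i) := by ring
            _ ≤ (α i * θ i) * ((w i e : ℝ) / θ i) :=
                mul_le_mul_of_nonneg_right (ha1 i) (div_nonneg (hwr _ _) h3.le)
            _ = α i * (w i e : ℝ) := by field_simp
      have hR' : ∑ i : Fin k, α i * wsum (fun e => (w i e : ℝ)) R - A / 2 ≤
          A / N * ∑ i : Fin k, wsum (fun e => (a i : ℝ) * ((w i e : ℝ) / θ i)) R := by
        rw [Finset.mul_sum]
        have h3 : A / 2 = ∑ i : Fin k, A / N * n := by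
          rw [Finset.sum_const, Finset.card_univ, Fintype.card_fin, nsmul_eq_mul, hN]
          field_simp
        rw [h3, ← Finset.sum_sub_distrib]
        refine Finset.sum_le_sum fun i _ => ?_
        have h4 : wsum (fun e => (a i : ℝ) * ((w i e : ℝ) / θ i)) R =
            (a i : ℝ) * (wsum (fun e => (w i e : ℝ)) R / θ i) := by
          rw [wsum_mul]
          congr 1
          have : (fun e => (w i e : ℝ) / θ i) = fun e => (θ i)⁻¹ * (w i e : ℝ) := by
            funext e; rw [div_eq_inv_mul]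
          rw [this, wsum_mul, div_eq_inv_mul]
        rw [h4]
        rcases (hθ0 i).eq_or_lt with h5 | h5
        · have h6 := hRW i
          rw [← h5, mul_zero] at h6
          have h7 : wsum (fun e => (w i e : ℝ)) R = 0 := le_antisymm h6 (hWnn i R)
          rw [h7]
          simp only [mul_zero, zero_div, zero_sub, Left.neg_nonpos_iff]
          positivity
        · have h6 : wsum (fun e => (w i e : ℝ)) R / θ i ≤ n := by
            rw [div_le_iff₀ h5]; exact hRW i
          have h7 : 0 ≤ wsum (fun e => (w i e : ℝ)) R / θ i := div_nonneg (hWnn i R) h5.le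
          have h8 : wsum (fun e => (w i e : ℝ)) R =
              θ i * (wsum (fun e => (w i e : ℝ)) R / θ i) := by field_simp
          set z := wsum (fun e => (w i e : ℝ)) R / θ i with hz
          rw [h8]
          have h9 := mul_le_mul_of_nonneg_right (ha2 i) h7
          have h10 : A / N * z ≤ A / N * n := mul_le_mul_of_nonneg_left h6 (by positivity)
          nlinarith
      have hAR : A ≤ ∑ i : Fin k, α i * wsum (fun e => (w i e : ℝ)) R := by
        have h3 : A ≤ α i0 * wsum (fun e => (w i0 e : ℝ)) R :=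
          mul_le_mul_of_nonneg_left
            (mem_le_wsum (g := fun e => (w i0 e : ℝ)) (fun e _ => hwr _ _) (hΘ i0 i0.2)) (hα i0)
        exact h3.trans (Finset.single_le_sum
          (f := fun i : Fin k => α i * wsum (fun e => (w i e : ℝ)) R)
          (fun i _ => mul_nonneg (hα i) (hWnn i R)) (Finset.mem_univ i0))
      have h3 : ∑ i : Fin k, α i * (wsum (fun e => (w i e : ℝ)) R / 8) =
          (∑ i : Fin k, α i * wsum (fun e => (w i e : ℝ)) R) / 8 := by
        rw [Finset.sum_div]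
        exact Finset.sum_congr rfl fun i _ => by ring
      rw [h3]
      have h4 : A / N * ∑ i : Fin k, wsum (fun e => (a i : ℝ) * ((w i e : ℝ) / θ i)) R ≤
          A / N * (4 * ∑ i : Fin k, wsum (fun e => (a i : ℝ) * ((w i e : ℝ) / θ i)) M) :=
        mul_le_mul_of_nonneg_left hfourR (by positivity)
      nlinarith

/-- The phases. -/
theorem exists_phases (k n p : ℕ) (hp : p.Prime) (hnp : n ≤ p) (w : ℕ → ℕ × ℕ → ℚ)
    (hw : ∀ i e, 0 ≤ w i e) (Θ E : List (ℕ × ℕ)) (hEn : ∀ e ∈ E, e.1 < n)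
    (hE : ∀ e ∈ E, ∀ i < k, w i e ≤ w i (Θ.getD i (0, 0)))
    (l : List (List ℕ × ℕ)) (hl : ∀ x ∈ l, x.2 ≤ p)
    (hQ : (l.map (fun x => (x.2 : ℝ) / p)).sum ≤ 2 / 5) :
    ∃ ph : List (List ℕ × ℕ × ℕ × ℕ), ph.map (fun x => (x.1, x.2.2.2)) = l ∧
      (∀ x ∈ ph, x.2.1 < p ∧ x.2.2.1 < p) ∧
      ∀ i : Fin k, 3 / 4 * (1 - 5 / 2 * (l.map (fun x => (x.2 : ℝ) / p)).sum) *
        (l.map (fun x => (x.2 : ℝ) / p *
          wsum (fun e => (w i e : ℝ)) (greedy (score k w Θ x.1) E))).sum -
        2 * k * (w i (Θ.getD i (0, 0)) : ℝ) * l.length ≤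
        wsum (fun e => (w i e : ℝ)) (run k p w Θ E ph) := by
  have hwr : ∀ (i : ℕ) e, (0 : ℝ) ≤ (w i e : ℝ) := fun i e => by exact_mod_cast hw i e
  induction l using List.reverseRecOn with
  | nil =>
    refine ⟨[], rfl, by simp, fun i => ?_⟩
    simp [run]
  | append_singleton l x ih =>
    have hx2 : x.2 ≤ p := hl x (by simp)
    have hq0 : (0 : ℝ) ≤ (x.2 : ℝ) / p := by positivity
    have hQ' : (l.map (fun x => (x.2 : ℝ) / p)).sum + (x.2 : ℝ) / p ≤ 2 / 5 := by
      simpa using hQ
    have hQ0 : 0 ≤ (l.map (fun x => (x.2 : ℝ) / p)).sum := by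
      refine List.sum_nonneg fun y hy => ?_
      rw [List.mem_map] at hy
      obtain ⟨z, -, rfl⟩ := hy
      positivity
    obtain ⟨ph, h1, h2, h3⟩ := ih (fun y hy => hl y (by simp [hy])) (by linarith)
    obtain ⟨hN1, hN2⟩ := run_isM k p w Θ E ph
    obtain ⟨g1, g2, -⟩ := greedy_spec (score k w Θ x.1) E
    have hMlen : (greedy (score k w Θ x.1) E).length ≤ p :=
      (isM_length g2 (fun e he => hEn e (g1 e he))).trans hnp
    obtain ⟨a, ha, b, hb, hab⟩ := exists_merge k p hp x.2 hx2 (run k p w Θ E ph)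
      (greedy (score k w Θ x.1) E) hN1 g2 hMlen (fun i e => (w i e : ℝ))
      (fun i => (w i (Θ.getD i (0, 0)) : ℝ)) (fun i e => hwr _ _)
      (fun i e he => by exact_mod_cast hE e (hN2 e he) i i.2)
      (fun i e he => by exact_mod_cast hE e (g1 e he) i i.2) (fun i => hwr _ _)
    refine ⟨ph ++ [(x.1, a, b, x.2)], by simp [h1], ?_, fun i => ?_⟩
    · intro y hy
      rcases List.mem_append.1 hy with hy | hy
      · exact h2 y hy
      · rw [List.mem_singleton] at hy
        subst hy
        exact ⟨ha, hb⟩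
    · rw [run_append]
      refine le_trans ?_ (hab i)
      have h4 := h3 i
      simp only [List.map_append, List.map_cons, List.map_nil, List.sum_append, List.sum_cons,
        List.sum_nil, add_zero, List.length_append, List.length_cons, List.length_nil, zero_add,
        Nat.cast_add, Nat.cast_one]
      set Q := (l.map (fun x => (x.2 : ℝ) / p)).sum with hQd
      set q := (x.2 : ℝ) / p with hqd
      set X := (l.map (fun x => (x.2 : ℝ) / p *
          wsum (fun e => (w i e : ℝ)) (greedy (score k w Θ x.1) E))).sum with hX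
      set WM := wsum (fun e => (w i e : ℝ)) (greedy (score k w Θ x.1) E) with hWM
      set WN := wsum (fun e => (w i e : ℝ)) (run k p w Θ E ph) with hWN
      set θ : ℝ := (w i (Θ.getD i (0, 0)) : ℝ) with hθ
      have hθ0 : 0 ≤ θ := hwr _ _
      have hX0 : 0 ≤ X := by
        refine List.sum_nonneg fun y hy => ?_
        rw [List.mem_map] at hy
        obtain ⟨z, -, rfl⟩ := hy
        exact mul_nonneg (by positivity) (wsum_nonneg fun e _ => hwr _ _)
      have hWM0 : 0 ≤ WM := wsum_nonneg fun e _ => hwr _ _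
      have c1 : 0 ≤ 1 - 5 / 2 * q := by linarith
      have c2 : 1 - 5 / 2 * q ≤ 1 := by linarith
      have c3 := mul_le_mul_of_nonneg_left h4 c1
      have c4 : 0 ≤ 2 * (k : ℝ) * θ * l.length := by positivity
      have c5 : (1 - 5 / 2 * q) * (2 * (k : ℝ) * θ * l.length) ≤ 2 * (k : ℝ) * θ * l.length := by
        nlinarith
      have c6 : 0 ≤ q * Q * X := by positivity
      have c7 : 0 ≤ (Q + q) * (q * WM) := by positivity
      nlinarith

/-- The light part of the argument. -/
theorem light (k n p : ℕ) (hp : p.Prime) (hnp : n ≤ p) (w : ℕ → ℕ × ℕ → ℚ)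
    (hw : ∀ i e, 0 ≤ w i e) (Θ E R : List (ℕ × ℕ)) (hEn : ∀ e ∈ E, e.1 < n)
    (hE : ∀ e ∈ E, ∀ i < k, w i e ≤ w i (Θ.getD i (0, 0))) (hRE : ∀ e ∈ R, e ∈ E)
    (h1 : (R.map Prod.fst).Nodup) (h2 : (R.map Prod.snd).Nodup)
    (hΘ : ∀ i < k, Θ.getD i (0, 0) ∈ R) :
    ∃ ph : List (List ℕ × ℕ × ℕ × ℕ), ph.length = k + 1 ∧
      (∀ x ∈ ph, x.1 ∈ tuples k (List.range (2 * k * n + 1)) ∧ x.2.1 < p ∧ x.2.2.1 < p ∧
        x.2.2.2 ≤ p) ∧
      ∀ i < k, 3 / 320 * wsum (w i) R - 2 * (k + 1) ^ 2 * w i (Θ.getD i (0, 0)) ≤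
        wsum (w i) (run k p w Θ E ph) := by
  have hwr : ∀ (i : ℕ) e, (0 : ℝ) ≤ (w i e : ℝ) := fun i e => by exact_mod_cast hw i e
  have hp0 : 0 < p := hp.pos
  have hpR : (0 : ℝ) < p := by exact_mod_cast hp0
  have hRn : R.length ≤ n := by
    have h3 : (R.map Prod.fst).toFinset ⊆ Finset.range n := by
      intro v hv
      rw [List.mem_toFinset, List.mem_map] at hv
      obtain ⟨e, he, rfl⟩ := hv
      exact Finset.mem_range.2 (hEn e (hRE e he))
    have h4 := Finset.card_le_card h3
    rw [List.toFinset_card_of_nodup h1, List.length_map, Finset.card_range] at h4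
    exact h4
  obtain ⟨a, x, ha, hx0, hx1, hx⟩ := minimax (k := k)
    (tuples k (List.range (2 * k * n + 1))).toFinset
    (fun a i => wsum (fun e => (w i e : ℝ)) (greedy (score k w Θ a) E))
    (fun i => wsum (fun e => (w i e : ℝ)) R / 8)
    (fun α hα => grid k n w hw Θ E R hE hRE h1 h2 hRn hΘ α hα)
  set τ : Fin (k + 1) → ℕ := fun t => ⌊x t * p / 5⌋₊ with hτ
  have hτ1 : ∀ t, (τ t : ℝ) / p ≤ x t / 5 := by
    intro t
    have h3 : (τ t : ℝ) ≤ x t * p / 5 := Nat.floor_le (by have := hx0 t; positivity)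
    rw [div_le_iff₀ hpR]
    linarith
  have hτ2 : ∀ t, x t / 5 - 1 / p ≤ (τ t : ℝ) / p := by
    intro t
    have h3 : x t * p / 5 < τ t + 1 := Nat.lt_floor_add_one _
    rw [le_div_iff₀ hpR]
    have : (x t / 5 - 1 / p) * p = x t * p / 5 - 1 := by field_simp
    rw [this]
    linarith
  have hxle : ∀ t, x t ≤ 1 := by
    intro t
    rw [← hx1]
    exact Finset.single_le_sum (fun t _ => hx0 t) (Finset.mem_univ t)
  have hτ3 : ∀ t, τ t ≤ p := by
    intro t
    have h3 : (τ t : ℝ) ≤ x t * p / 5 := Nat.floor_le (by have := hx0 t; positivity)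
    have h4 : (τ t : ℝ) ≤ p := by have := hxle t; nlinarith
    exact_mod_cast h4
  set l : List (List ℕ × ℕ) := List.ofFn (fun t => (a t, τ t)) with hl
  have hlsum : ∀ f : List ℕ × ℕ → ℝ, (l.map f).sum = ∑ t, f (a t, τ t) := by
    intro f
    rw [hl, List.map_ofFn, List.sum_ofFn]
    rfl
  have hQ : (l.map (fun x => (x.2 : ℝ) / p)).sum ≤ 1 / 5 := by
    rw [hlsum]
    refine (Finset.sum_le_sum fun t _ => hτ1 t).trans ?_
    rw [← Finset.sum_div, hx1]
  obtain ⟨ph, hp1, hp2, hp3⟩ := exists_phases k n p hp hnp w hw Θ E hEn hE l (by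
    intro y hy
    rw [hl, List.mem_ofFn'] at hy
    obtain ⟨t, rfl⟩ := hy
    exact hτ3 t) (by linarith)
  refine ⟨ph, ?_, ?_, ?_⟩
  · have := congrArg List.length hp1
    rw [List.length_map, hl, List.length_ofFn] at this
    exact this
  · intro y hy
    have h3 : (y.1, y.2.2.2) ∈ l := by
      rw [← hp1]
      exact List.mem_map_of_mem (f := fun x : List ℕ × ℕ × ℕ × ℕ => (x.1, x.2.2.2)) hy
    rw [hl, List.mem_ofFn'] at h3
    obtain ⟨t, ht⟩ := h3
    rw [Prod.mk.injEq] at ht
    refine ⟨?_, (hp2 y hy).1, (hp2 y hy).2, ?_⟩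
    · rw [← ht.1]
      exact List.mem_toFinset.1 (ha t)
    · rw [← ht.2]; exact hτ3 t
  · intro i hi
    have h3 := hp3 ⟨i, hi⟩
    have h4 := hx ⟨i, hi⟩
    simp only at h3 h4
    rw [hlsum] at h3 hQ
    have hlen : l.length = k + 1 := by rw [hl, List.length_ofFn]
    rw [hlsum, hlen] at h3
    set θ : ℝ := (w i (Θ.getD i (0, 0)) : ℝ) with hθ
    have hθ0 : 0 ≤ θ := hwr _ _
    set WR := wsum (fun e => (w i e : ℝ)) R with hWR
    set Q := ∑ t, (τ t : ℝ) / p with hQd
    set X := ∑ t, (τ t : ℝ) / p * wsum (fun e => (w i e : ℝ)) (greedy (score k w Θ (a t)) E)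
      with hX
    have hMθ : ∀ t, wsum (fun e => (w i e : ℝ)) (greedy (score k w Θ (a t)) E) ≤ p * θ := by
      intro t
      obtain ⟨g1, g2, -⟩ := greedy_spec (score k w Θ (a t)) E
      refine (wsum_le_length (θ := θ) fun e he => ?_).trans ?_
      · have h5 := hE e (g1 e he) i hi
        simp only [hθ]
        exact_mod_cast h5
      · have h5 : (greedy (score k w Θ (a t)) E).length ≤ p :=
          (isM_length g2 (fun e he => hEn e (g1 e he))).trans hnp
        exact mul_le_mul_of_nonneg_right (by exact_mod_cast h5) hθ0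
    have hX1 : WR / 40 - (k + 1) * θ ≤ X := by
      have h5 : ∑ t, (x t / 5 - 1 / p) *
          wsum (fun e => (w i e : ℝ)) (greedy (score k w Θ (a t)) E) ≤ X := by
        refine Finset.sum_le_sum fun t _ => ?_
        exact mul_le_mul_of_nonneg_right (hτ2 t) (wsum_nonneg fun e _ => hwr _ _)
      refine le_trans ?_ h5
      have h6 : ∑ t, (x t * wsum (fun e => (w i e : ℝ)) (greedy (score k w Θ (a t)) E) / 5 - θ) ≤
          ∑ t, (x t / 5 - 1 / p) *
          wsum (fun e => (w i e : ℝ)) (greedy (score k w Θ (a t)) E) := by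
        refine Finset.sum_le_sum fun t _ => ?_
        have h7 : 1 / (p : ℝ) * wsum (fun e => (w i e : ℝ)) (greedy (score k w Θ (a t)) E) ≤ θ := by
          rw [div_mul_eq_mul_div, one_mul, div_le_iff₀ hpR, mul_comm θ]
          exact hMθ t
        have h8 : (x t / 5 - 1 / p) *
          wsum (fun e => (w i e : ℝ)) (greedy (score k w Θ (a t)) E) =
          x t * wsum (fun e => (w i e : ℝ)) (greedy (score k w Θ (a t)) E) / 5 -
          1 / (p : ℝ) * wsum (fun e => (w i e : ℝ)) (greedy (score k w Θ (a t)) E) := by ring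
        rw [h8]
        linarith
      refine le_trans ?_ h6
      rw [Finset.sum_sub_distrib, ← Finset.sum_div, Finset.sum_const, Finset.card_univ,
        Fintype.card_fin, nsmul_eq_mul]
      push_cast
      linarith
    have hX0 : 0 ≤ X := Finset.sum_nonneg fun t _ =>
      mul_nonneg (by positivity) (wsum_nonneg fun e _ => hwr _ _)
    have hfin : 3 / 320 * WR - 2 * ((k : ℝ) + 1) ^ 2 * θ ≤
        wsum (fun e => (w i e : ℝ)) (run k p w Θ E ph) := by
      refine le_trans ?_ h3
      push_cast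
      have c1 : (0 : ℝ) ≤ k := Nat.cast_nonneg k
      have c2 : 3 / 8 * X ≤ 3 / 4 * (1 - 5 / 2 * Q) * X := by nlinarith
      have c3 : 0 ≤ (k : ℝ) * θ := mul_nonneg c1 hθ0
      nlinarith
    have h5 : ((3 / 320 * wsum (w i) R - 2 * (k + 1) ^ 2 * w i (Θ.getD i (0, 0)) : ℚ) : ℝ) ≤
        ((wsum (w i) (run k p w Θ E ph) : ℚ) : ℝ) := by
      push_cast
      rw [wsum_cast, wsum_cast]
      exact hfin
    exact_mod_cast h5

end Pool.Agent.Helper83.MaxTSP
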