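import Pool.Agent.Helper83.MaxTSP.Algo

/-! The main theorem. -/

namespace Pool.Agent.Helper83.MaxTSP

open Pool.Agent.PolyTime

theorem table_length {k : ℕ} (I : Inst k) : I.table.length = I.n := by
  simp [Inst.table]

theorem getw_table {k : ℕ} (I : Inst k) (i : Fin k) (u v : Fin I.n) :
    getw I.table i (u, v) = I.w i u v := by
  have h1 : I.table.getD (u : ℕ) [] =
      List.ofFn (fun v => List.ofFn fun i => I.w i u v) := by
    unfold Inst.table
    rw [List.getD_eq_getElem _ _ (by simp)]
    simp
  have h2 : (List.ofFn (fun v => List.ofFn fun i => I.w i u v)).getD (v : ℕ) [] =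
      List.ofFn fun i => I.w i u v := by
    rw [List.getD_eq_getElem _ _ (by simp)]
    simp
  have h3 : (List.ofFn fun i => I.w i u v).getD (i : ℕ) 0 = I.w i u v := by
    rw [List.getD_eq_getElem _ _ (by simp)]
    simp
  unfold getw
  rw [h1, h2, h3]

theorem getw_nonneg {k : ℕ} (I : Inst k) (i : ℕ) (e : ℕ × ℕ) : 0 ≤ getw I.table i e := by
  by_cases h1 : e.1 < I.n
  · by_cases h2 : e.2 < I.n
    · by_cases h3 : i < k
      · have := getw_table I ⟨i, h3⟩ ⟨e.1, h1⟩ ⟨e.2, h2⟩
        simp only at this
        rw [this]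
        exact I.nonneg _ _ _
      · unfold getw
        have h4 : I.table.getD e.1 [] =
            List.ofFn (fun v => List.ofFn fun i => I.w i ⟨e.1, h1⟩ v) := by
          unfold Inst.table
          rw [List.getD_eq_getElem _ _ (by simpa using h1)]
          simp
        have h5 : (List.ofFn (fun v => List.ofFn fun i => I.w i ⟨e.1, h1⟩ v)).getD e.2 [] =
            List.ofFn fun i => I.w i ⟨e.1, h1⟩ ⟨e.2, h2⟩ := by
          rw [List.getD_eq_getElem _ _ (by simpa using h2)]
          simp
        rw [h4, h5, List.getD_eq_default _ _ (by simpa using h3)]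
    · unfold getw
      have h4 : I.table.getD e.1 [] =
          List.ofFn (fun v => List.ofFn fun i => I.w i ⟨e.1, h1⟩ v) := by
        unfold Inst.table
        rw [List.getD_eq_getElem _ _ (by simpa using h1)]
        simp
      rw [h4, List.getD_eq_default _ [] (by simpa using h2)]
      simp
  · unfold getw
    have h4 : I.table.getD e.1 [] = [] :=
      List.getD_eq_default _ _ (by rw [table_length]; omega)
    rw [h4]
    simp

theorem weight_eq {k : ℕ} (I : Inst k) (i : Fin k) (H : List (Fin I.n)) :
    I.weight i H = wsum (getw I.table i) (cyc (H.map Fin.val)) := by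
  unfold Inst.weight wsum cyc
  rw [← List.map_rotate, List.zip_map, List.map_map, List.zip_eq_zipWith, List.map_zipWith]
  congr 1
  congr 1
  funext u v
  simp only [Function.comp, Prod.map]
  rw [getw_table]

theorem exists_cycle {n : ℕ} {c : List ℕ} (h1 : c.Nodup) (h2 : ∀ v, v ∈ c ↔ v < n) :
    ∃ H : List (Fin n), IsHamCycle H ∧ H.map Fin.val = c := by
  refine ⟨c.pmap Fin.mk (fun v hv => (h2 v).1 hv), ?_, ?_⟩
  · have h3 : (c.pmap Fin.mk (fun v hv => (h2 v).1 hv)).map Fin.val = c := by
      rw [List.map_pmap]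
      simp
    refine ⟨List.Nodup.of_map Fin.val (by rw [h3]; exact h1), fun v => ?_⟩
    rw [List.mem_pmap]
    exact ⟨v.1, (h2 _).2 v.2, rfl⟩
  · rw [List.map_pmap]
    simp

theorem valid_iff {n : ℕ} {c : List ℕ} (h : valid n c = true) :
    c.Nodup ∧ ∀ v, v ∈ c ↔ v < n := by
  unfold valid at h
  rw [Bool.and_eq_true, decide_eq_true_eq, List.all_eq_true] at h
  obtain ⟨h1, h2⟩ := h
  have h3 : (List.range n) ⊆ c := fun v hv => by simpa using h2 v hv
  have h4 : (List.range n).Perm c :=
    (List.subperm_of_subset List.nodup_range h3).perm_of_length_le (by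
      rw [List.length_range]; omega)
  refine ⟨(h4.nodup_iff).1 List.nodup_range, fun v => ?_⟩
  rw [← h4.mem_iff, List.mem_range]

theorem valid_of {n : ℕ} {c : List ℕ} (h1 : c.Nodup) (h2 : ∀ v, v ∈ c ↔ v < n) :
    valid n c = true := by
  unfold valid
  rw [Bool.and_eq_true, decide_eq_true_eq, List.all_eq_true]
  have h3 : c.Perm (List.range n) := by
    rw [List.perm_ext_iff_of_nodup h1 List.nodup_range]
    intro v
    rw [h2, List.mem_range]
  refine ⟨by rw [h3.length_eq, List.length_range], fun v hv => ?_⟩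
  rw [List.mem_range] at hv
  simpa using (h2 v).2 hv

theorem alg_correct {k : ℕ} (I : Inst k) : IsApproxPareto I (1 / 320) (alg k I.table) := by
  constructor
  · intro x hx
    unfold alg at hx
    rw [List.mem_filter, table_length] at hx
    obtain ⟨h1, h2⟩ := valid_iff hx.2
    exact exists_cycle h1 h2
  · intro H hH
    have hnd : (H.map Fin.val).Nodup := hH.1.map Fin.val_injective
    have hmem : ∀ v, v ∈ H.map Fin.val ↔ v < I.n := by
      intro v
      rw [List.mem_map]
      constructor
      · rintro ⟨a, -, rfl⟩; exact a.2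
      · intro hv; exact ⟨⟨v, hv⟩, hH.2 _, rfl⟩
    obtain ⟨p, hp, L, hL, hLn, Θ, hΘ, ph, hph1, hph2, hc1, hc2, hc3⟩ :=
      exists_guess k I.n (getw I.table) (getw_nonneg I) (H.map Fin.val) hnd hmem
    set c := tour I.n L (run k p (getw I.table) Θ (avail k I.n (getw I.table) L Θ) ph) with hc
    obtain ⟨H', hH', hH'c⟩ := exists_cycle hc1 hc2
    refine ⟨H', hH', ?_, fun i => ?_⟩
    · rw [hH'c]
      unfold alg
      rw [List.mem_filter, table_length]
      refine ⟨?_, valid_of hc1 hc2⟩
      rw [List.mem_map]
      refine ⟨(p, L, Θ, ph), ?_, ?_⟩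
      · unfold guesses
        rw [List.pair_mem_product, List.pair_mem_product, List.pair_mem_product, List.mem_range]
        refine ⟨hp, mem_upTo _ _ _ hL (fun v hv => List.mem_range.2 (hLn v hv)), hΘ, ?_⟩
        rw [mem_tuples]
        refine ⟨hph1, fun x hx => ?_⟩
        obtain ⟨a1, a2, a3, a4⟩ := hph2 x hx
        obtain ⟨x1, x2, x3, x4⟩ := x
        unfold phases
        rw [List.pair_mem_product, List.pair_mem_product, List.pair_mem_product, List.mem_range,
          List.mem_range, List.mem_range]
        exact ⟨a1, a2, a3, a4⟩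
      · unfold candidate
        rw [table_length]
    · rw [weight_eq, weight_eq, hH'c]
      exact hc3 i i.2

theorem pt_table (k : ℕ) : PolyTime (fun I : Inst k => I.table) :=
  ⟨fun x => x, FP.id, fun _ => rfl⟩

theorem approxATSP (k : ℕ) : ApproxATSP k (1 / 320) :=
  ⟨fun I => alg k I.table, (pt_alg k).comp (pt_table k), alg_correct⟩

theorem approxSTSP (k : ℕ) : ApproxSTSP k (1 / 320) :=
  ⟨fun I => alg k I.1.table, (pt_alg k).comp ((pt_table k).comp PolyTime.subtype_val),
    fun I => alg_correct I.1⟩

end Pool.Agent.Helper83.MaxTSP
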