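import Pool.Agent.Helper83.MaxTSP.Hash

/-! Greedy matchings and the merging step. -/

namespace Pool.Agent.Helper83.MaxTSP

/-- do the two edges share a vertex -/
def clash (e f : ℕ × ℕ) : Bool :=
  decide (e.1 = f.1) || decide (e.1 = f.2) || decide (e.2 = f.1) || decide (e.2 = f.2)

theorem clash_iff (e f : ℕ × ℕ) :
    clash e f = true ↔ e.1 = f.1 ∨ e.1 = f.2 ∨ e.2 = f.1 ∨ e.2 = f.2 := by
  simp [clash, or_assoc]

theorem clash_false_iff (e f : ℕ × ℕ) :
    clash e f = false ↔ e.1 ≠ f.1 ∧ e.1 ≠ f.2 ∧ e.2 ≠ f.1 ∧ e.2 ≠ f.2 := by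
  simp [clash, and_assoc]

theorem clash_comm (e f : ℕ × ℕ) : clash e f = clash f e := by
  rw [Bool.eq_iff_iff, clash_iff, clash_iff]
  constructor <;> intro h <;> omega

theorem clash_self (e : ℕ × ℕ) : clash e e = true := by simp [clash]

/-- the list is a matching -/
def IsM (M : List (ℕ × ℕ)) : Prop :=
  M.Pairwise (fun e f => clash e f = false)

/-- total weight of a list of edges -/
def wsum {K : Type} [AddMonoid K] (g : ℕ × ℕ → K) (l : List (ℕ × ℕ)) : K := (l.map g).sum

section wsum

variable {K : Type} [Field K] [LinearOrder K] [IsStrictOrderedRing K]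

@[simp] theorem wsum_nil (g : ℕ × ℕ → K) : wsum g [] = 0 := rfl

@[simp] theorem wsum_cons (g : ℕ × ℕ → K) (e : ℕ × ℕ) (l : List (ℕ × ℕ)) :
    wsum g (e :: l) = g e + wsum g l := by simp [wsum]

theorem wsum_append (g : ℕ × ℕ → K) (l m : List (ℕ × ℕ)) :
    wsum g (l ++ m) = wsum g l + wsum g m := by simp [wsum]

theorem wsum_nonneg {g : ℕ × ℕ → K} {l : List (ℕ × ℕ)} (h : ∀ e ∈ l, 0 ≤ g e) :
    0 ≤ wsum g l := by
  induction l with
  | nil => simp
  | cons e l ih =>
    rw [wsum_cons]
    have := h e (by simp)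
    have := ih (fun f hf => h f (by simp [hf]))
    linarith

theorem wsum_le_wsum {g g' : ℕ × ℕ → K} {l : List (ℕ × ℕ)} (h : ∀ e ∈ l, g e ≤ g' e) :
    wsum g l ≤ wsum g' l := by
  induction l with
  | nil => simp
  | cons e l ih =>
    rw [wsum_cons, wsum_cons]
    have := h e (by simp)
    have := ih (fun f hf => h f (by simp [hf]))
    linarith

theorem wsum_add (g g' : ℕ × ℕ → K) (l : List (ℕ × ℕ)) :
    wsum (fun e => g e + g' e) l = wsum g l + wsum g' l := by
  induction l with
  | nil => simp
  | cons e l ih => rw [wsum_cons, wsum_cons, wsum_cons, ih]; ring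

theorem wsum_sub (g g' : ℕ × ℕ → K) (l : List (ℕ × ℕ)) :
    wsum (fun e => g e - g' e) l = wsum g l - wsum g' l := by
  induction l with
  | nil => simp
  | cons e l ih => rw [wsum_cons, wsum_cons, wsum_cons, ih]; ring

theorem wsum_mul (c : K) (g : ℕ × ℕ → K) (l : List (ℕ × ℕ)) :
    wsum (fun e => c * g e) l = c * wsum g l := by
  induction l with
  | nil => simp
  | cons e l ih => rw [wsum_cons, wsum_cons, ih]; ring

theorem wsum_finsum {ι : Type} (s : Finset ι) (g : ι → ℕ × ℕ → K) (l : List (ℕ × ℕ)) :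
    wsum (fun e => ∑ i ∈ s, g i e) l = ∑ i ∈ s, wsum (g i) l := by
  induction l with
  | nil => simp
  | cons e l ih => simp only [wsum_cons, ih, Finset.sum_add_distrib]

theorem wsum_filter_le {g : ℕ × ℕ → K} {l : List (ℕ × ℕ)} (p : ℕ × ℕ → Bool)
    (h : ∀ e ∈ l, 0 ≤ g e) : wsum g (l.filter p) ≤ wsum g l := by
  induction l with
  | nil => simp
  | cons e l ih =>
    have h1 := h e (by simp)
    have h2 := ih (fun f hf => h f (by simp [hf]))
    rw [List.filter_cons]
    split_ifs
    · rw [wsum_cons, wsum_cons]; linarith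
    · rw [wsum_cons]; linarith

theorem wsum_filter_not (g : ℕ × ℕ → K) (l : List (ℕ × ℕ)) (p : ℕ × ℕ → Bool) :
    wsum g (l.filter (fun e => !p e)) = wsum g l - wsum g (l.filter p) := by
  induction l with
  | nil => simp
  | cons e l ih =>
    rw [List.filter_cons, List.filter_cons]
    cases hp : p e
    · simp only [Bool.not_false, if_true, Bool.false_eq_true, if_false]
      rw [wsum_cons, wsum_cons, ih]; ring
    · simp only [Bool.not_true, if_true, Bool.false_eq_true, if_false]
      rw [wsum_cons, wsum_cons, ih]; ring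

theorem wsum_le_length {g : ℕ × ℕ → K} {l : List (ℕ × ℕ)} {θ : K} (h : ∀ e ∈ l, g e ≤ θ) :
    wsum g l ≤ l.length * θ := by
  induction l with
  | nil => simp
  | cons e l ih =>
    have h1 := h e (by simp)
    have h2 := ih (fun f hf => h f (by simp [hf]))
    rw [wsum_cons, List.length_cons]
    push_cast
    linarith

theorem mem_le_wsum {g : ℕ × ℕ → K} {l : List (ℕ × ℕ)} (h : ∀ e ∈ l, 0 ≤ g e) {e : ℕ × ℕ}
    (he : e ∈ l) : g e ≤ wsum g l := by
  induction l with
  | nil => simp at he
  | cons f l ih =>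
    have h1 := h f (by simp)
    have h3 : ∀ e ∈ l, 0 ≤ g e := fun f hf => h f (by simp [hf])
    rw [wsum_cons]
    rcases List.mem_cons.1 he with rfl | he
    · have := wsum_nonneg h3; linarith
    · have := ih h3 he; linarith

theorem filter_clash_length {M : List (ℕ × ℕ)} (hM : IsM M) (e : ℕ × ℕ) :
    (M.filter (fun f => clash f e)).length ≤ 2 := by
  have h1 : IsM (M.filter (fun f => clash f e)) := List.Pairwise.filter _ hM
  have h2 : ∀ f ∈ M.filter (fun f => clash f e), clash f e = true := by
    intro f hf; exact (List.mem_filter.1 hf).2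
  generalize M.filter (fun f => clash f e) = L at h1 h2
  match L, h1, h2 with
  | [], _, _ => simp
  | [_], _, _ => simp
  | [_, _], _, _ => simp
  | a :: b :: c :: L, h1, h2 =>
    exfalso
    have hcl : ∀ f, clash f e = true → (f.1 = e.1 ∨ f.2 = e.1) ∨ (f.1 = e.2 ∨ f.2 = e.2) := by
      intro f hf
      rcases (clash_iff _ _).1 hf with h | h | h | h
      · exact Or.inl (Or.inl h)
      · exact Or.inr (Or.inl h)
      · exact Or.inl (Or.inr h)
      · exact Or.inr (Or.inr h)
    have hsh : ∀ (f g : ℕ × ℕ) (v : ℕ), (f.1 = v ∨ f.2 = v) → (g.1 = v ∨ g.2 = v) →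
        clash f g = false → False := by
      intro f g v hf hg hfg
      obtain ⟨n1, n2, n3, n4⟩ := (clash_false_iff _ _).1 hfg
      rcases hf with hf | hf <;> rcases hg with hg | hg
      · exact n1 (hf.trans hg.symm)
      · exact n2 (hf.trans hg.symm)
      · exact n3 (hf.trans hg.symm)
      · exact n4 (hf.trans hg.symm)
    have ha := hcl a (h2 a (by simp))
    have hb := hcl b (h2 b (by simp))
    have hc := hcl c (h2 c (by simp))
    unfold IsM at h1
    rw [List.pairwise_cons] at h1
    have hab := h1.1 b (by simp)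
    have hac := h1.1 c (by simp)
    have h3 := h1.2
    rw [List.pairwise_cons] at h3
    have hbc := h3.1 c (by simp)
    rcases ha with ha | ha <;> rcases hb with hb | hb
    · exact hsh _ _ _ ha hb hab
    · rcases hc with hc | hc
      · exact hsh _ _ _ ha hc hac
      · exact hsh _ _ _ hb hc hbc
    · rcases hc with hc | hc
      · exact hsh _ _ _ hb hc hbc
      · exact hsh _ _ _ ha hc hac
    · exact hsh _ _ _ ha hb hab

theorem filter_clash_length' {M : List (ℕ × ℕ)} (hM : IsM M) (e : ℕ × ℕ) :
    (M.filter (fun f => clash e f)).length ≤ 2 := by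
  have := filter_clash_length hM e
  rwa [List.filter_congr (fun f _ => clash_comm f e)] at this

theorem filter_clash_length_four {R : List (ℕ × ℕ)} (h1 : (R.map Prod.fst).Nodup)
    (h2 : (R.map Prod.snd).Nodup) (f : ℕ × ℕ) :
    (R.filter (fun e => clash f e)).length ≤ 4 := by
  have key : (R.filter (fun e => clash f e)).length ≤ (R.map Prod.fst).count f.1 +
      (R.map Prod.fst).count f.2 + (R.map Prod.snd).count f.1 + (R.map Prod.snd).count f.2 := by
    clear h1 h2
    induction R with
    | nil => simp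
    | cons e R ih =>
      rw [List.filter_cons]
      simp only [List.map_cons, List.count_cons, beq_iff_eq]
      by_cases hc : clash f e = true
      · rw [if_pos hc, List.length_cons]
        rw [clash_iff] at hc
        have h1 : e.1 = f.1 → (if e.1 = f.1 then 1 else 0) = 1 := fun h => if_pos h
        have h2 : e.1 = f.2 → (if e.1 = f.2 then 1 else 0) = 1 := fun h => if_pos h
        have h3 : e.2 = f.1 → (if e.2 = f.1 then 1 else 0) = 1 := fun h => if_pos h
        have h4 : e.2 = f.2 → (if e.2 = f.2 then 1 else 0) = 1 := fun h => if_pos h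
        generalize (if e.1 = f.1 then 1 else 0) = i1 at *
        generalize (if e.1 = f.2 then 1 else 0) = i2 at *
        generalize (if e.2 = f.1 then 1 else 0) = i3 at *
        generalize (if e.2 = f.2 then 1 else 0) = i4 at *
        rcases hc with h | h | h | h
        · have := h1 h.symm; omega
        · have := h3 h.symm; omega
        · have := h2 h.symm; omega
        · have := h4 h.symm; omega
      · rw [if_neg hc]
        generalize (if e.1 = f.1 then 1 else 0) = i1 at *
        generalize (if e.1 = f.2 then 1 else 0) = i2 at *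
        generalize (if e.2 = f.1 then 1 else 0) = i3 at *
        generalize (if e.2 = f.2 then 1 else 0) = i4 at *
        omega
  have a1 := List.nodup_iff_count_le_one.1 h1 f.1
  have a2 := List.nodup_iff_count_le_one.1 h1 f.2
  have a3 := List.nodup_iff_count_le_one.1 h2 f.1
  have a4 := List.nodup_iff_count_le_one.1 h2 f.2
  omega

/-- weight of the edges of `N` which clash with `f` -/
def loss (w : ℕ × ℕ → K) (N : List (ℕ × ℕ)) (f : ℕ × ℕ) : K :=
  wsum w (N.filter (fun e => clash f e))

theorem loss_nonneg {w : ℕ × ℕ → K} {N : List (ℕ × ℕ)} (h : ∀ e ∈ N, 0 ≤ w e) (f : ℕ × ℕ) :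
    0 ≤ loss w N f :=
  wsum_nonneg fun e he => h e (List.mem_filter.1 he).1

theorem loss_le {w : ℕ × ℕ → K} {N : List (ℕ × ℕ)} (hN : IsM N) {θ : K}
    (hθ0 : 0 ≤ θ) (hθ : ∀ e ∈ N, w e ≤ θ) (f : ℕ × ℕ) : loss w N f ≤ 2 * θ := by
  unfold loss
  refine (wsum_le_length (θ := θ) fun e he => hθ e (List.mem_filter.1 he).1).trans ?_
  have h1 := filter_clash_length' hN f
  have h2 : (((N.filter (fun e => clash f e)).length : ℕ) : K) ≤ 2 := by exact_mod_cast h1
  exact mul_le_mul_of_nonneg_right h2 hθ0

theorem wsum_loss_le {w : ℕ × ℕ → K} {M N : List (ℕ × ℕ)} (hM : IsM M)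
    (h : ∀ e ∈ N, 0 ≤ w e) : wsum (loss w N) M ≤ 2 * wsum w N := by
  induction N with
  | nil =>
    have : loss w [] = fun _ => 0 := by funext f; simp [loss]
    rw [this]
    simp [wsum]
  | cons e N ih =>
    have h0 := h e (by simp)
    have ih := ih (fun f hf => h f (by simp [hf]))
    have h1 : loss w (e :: N) = fun f => (if clash f e then w e else 0) + loss w N f := by
      funext f
      unfold loss
      rw [List.filter_cons]
      split_ifs
      · rw [wsum_cons]
      · rw [zero_add]
    have h2 : wsum (fun f => if clash f e then w e else 0) M =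
        (M.filter (fun f => clash f e)).length * w e := by
      clear h1 hM
      clear ih
      clear ih
      induction M with
      | nil => simp
      | cons f M ihM =>
        rw [wsum_cons, ihM, List.filter_cons]
        split_ifs
        · rw [List.length_cons]; push_cast; ring
        · rw [zero_add]
    rw [h1, wsum_add, h2, wsum_cons]
    have h3 : (((M.filter (fun f => clash f e)).length : ℕ) : K) ≤ 2 := by
      exact_mod_cast filter_clash_length hM e
    nlinarith

/-- remove from `N` the edges which clash with `S` -/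
def cleanup (N S : List (ℕ × ℕ)) : List (ℕ × ℕ) :=
  N.filter (fun e => S.all (fun f => !clash f e))

theorem wsum_cleanup {w : ℕ × ℕ → K} {N : List (ℕ × ℕ)} (S : List (ℕ × ℕ))
    (h : ∀ e ∈ N, 0 ≤ w e) : wsum w N - wsum (loss w N) S ≤ wsum w (cleanup N S) := by
  induction S generalizing N with
  | nil => simp [cleanup]
  | cons f S ih =>
    have h1 : cleanup N (f :: S) = cleanup (N.filter (fun e => !clash f e)) S := by
      unfold cleanup
      rw [List.filter_filter]
      refine List.filter_congr fun e _ => ?_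
      rw [List.all_cons, Bool.and_comm]
    have h2 : ∀ e ∈ N.filter (fun e => !clash f e), 0 ≤ w e :=
      fun e he => h e (List.mem_filter.1 he).1
    have h3 := ih h2
    rw [h1]
    refine le_trans ?_ h3
    rw [wsum_filter_not, wsum_cons]
    have h4 : wsum (loss w (N.filter (fun e => !clash f e))) S ≤ wsum (loss w N) S := by
      refine wsum_le_wsum fun g _ => ?_
      unfold loss
      rw [List.filter_filter, List.filter_congr (fun e _ => Bool.and_comm _ _),
        ← List.filter_filter]
      exact wsum_filter_le _ fun e he => h e (List.mem_filter.1 he).1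
    have h5 : loss w N f = wsum w (N.filter (fun e => clash f e)) := rfl
    rw [h5]
    linarith

theorem isM_cleanup_append {N S : List (ℕ × ℕ)} (hN : IsM N) (hS : IsM S) :
    IsM (cleanup N S ++ S) := by
  unfold IsM at *
  rw [List.pairwise_append]
  refine ⟨List.Pairwise.filter _ hN, hS, ?_⟩
  intro e he f hf
  have := (List.mem_filter.1 he).2
  rw [List.all_eq_true] at this
  have := this f hf
  rw [clash_comm]
  simpa using this

end wsum

/-- the edges of `M` selected by a hash function -/
def sel (p a b τ : ℕ) (M : List (ℕ × ℕ)) : List (ℕ × ℕ) :=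
  (M.zipIdx.filter (fun x => decide ((a * x.2 + b) % p < τ))).map (fun x => x.1)

theorem sel_sublist (p a b τ : ℕ) (M : List (ℕ × ℕ)) : (sel p a b τ M).Sublist M := by
  have : (sel p a b τ M).Sublist (M.zipIdx.map (fun x => x.1)) :=
    List.Sublist.map _ List.filter_sublist
  rwa [List.zipIdx_map_fst] at this

/-- one merging step -/
def merge (p a b τ : ℕ) (N M : List (ℕ × ℕ)) : List (ℕ × ℕ) :=
  cleanup N (sel p a b τ M) ++ sel p a b τ M

theorem isM_merge {p a b τ : ℕ} {N M : List (ℕ × ℕ)} (hN : IsM N) (hM : IsM M) :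
    IsM (merge p a b τ N M) :=
  isM_cleanup_append hN (List.Pairwise.sublist (sel_sublist _ _ _ _ _) hM)

theorem mem_merge {p a b τ : ℕ} {N M : List (ℕ × ℕ)} {e : ℕ × ℕ}
    (h : e ∈ merge p a b τ N M) : e ∈ N ∨ e ∈ M := by
  unfold merge at h
  rcases List.mem_append.1 h with h | h
  · exact Or.inl (List.mem_filter.1 h).1
  · exact Or.inr ((sel_sublist _ _ _ _ _).subset h)

theorem wsum_sel (p a b τ : ℕ) (M : List (ℕ × ℕ)) (g : ℕ × ℕ → ℝ) :
    wsum g (sel p a b τ M) = ∑ j ∈ Finset.range M.length,
      (if (a * j + b) % p < τ then g (M.getD j (0, 0)) else 0) := by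
  induction M using List.reverseRecOn with
  | nil => simp [sel]
  | append_singleton M e ih =>
    have h1 : sel p a b τ (M ++ [e]) = sel p a b τ M ++
        (if (a * M.length + b) % p < τ then [e] else []) := by
      unfold sel
      rw [List.zipIdx_append, List.filter_append, List.map_append]
      congr 1
      simp only [List.zipIdx_singleton, zero_add]
      rw [List.filter_cons]
      by_cases h : (a * M.length + b) % p < τ
      · simp [h]
      · simp [h]
    rw [h1, wsum_append, ih, List.length_append, List.length_singleton, Finset.sum_range_succ]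
    congr 1
    · refine Finset.sum_congr rfl fun j hj => ?_
      rw [Finset.mem_range] at hj
      rw [List.getD_append _ _ _ _ hj]
    · rw [List.getD_append_right _ _ _ _ le_rfl]
      split_ifs
      · simp
      · simp

theorem wsum_eq_range (M : List (ℕ × ℕ)) (g : ℕ × ℕ → ℝ) :
    wsum g M = ∑ j ∈ Finset.range M.length, g (M.getD j (0, 0)) := by
  induction M using List.reverseRecOn with
  | nil => simp
  | append_singleton M e ih =>
    rw [wsum_append, ih, List.length_append, List.length_singleton, Finset.sum_range_succ]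
    congr 1
    · refine Finset.sum_congr rfl fun j hj => ?_
      rw [Finset.mem_range] at hj
      rw [List.getD_append _ _ _ _ hj]
    · rw [List.getD_append_right _ _ _ _ le_rfl]
      simp

/-- The merging step with a good hash function. -/
theorem exists_merge (k p : ℕ) (hp : p.Prime) (τ : ℕ) (hτ : τ ≤ p) (N M : List (ℕ × ℕ))
    (hN : IsM N) (hM : IsM M) (hm : M.length ≤ p) (w : Fin k → ℕ × ℕ → ℝ) (θ : Fin k → ℝ)
    (hw : ∀ i e, 0 ≤ w i e) (hθN : ∀ i, ∀ e ∈ N, w i e ≤ θ i)
    (hθM : ∀ i, ∀ e ∈ M, w i e ≤ θ i) (hθ : ∀ i, 0 ≤ θ i) :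
    ∃ a < p, ∃ b < p, ∀ i,
      (1 - 5 / 2 * ((τ : ℝ) / p)) * wsum (w i) N + 3 / 4 * (((τ : ℝ) / p) * wsum (w i) M) -
        2 * k * θ i ≤ wsum (w i) (merge p a b τ N M) := by
  set G : Fin k → ℕ × ℕ → ℝ := fun i f => w i f - loss (w i) N f with hG
  obtain ⟨a, ha, b, hb, hab⟩ := exists_hash k p hp τ hτ M.length hm
    (fun i j => G i (M.getD j (0, 0)))
  refine ⟨a, ha, b, hb, fun i => ?_⟩
  set q : ℝ := (τ : ℝ) / p with hq
  have hq0 : 0 ≤ q := by positivity
  have h1 : ∑ j ∈ Finset.range M.length, G i (M.getD j (0, 0)) * cind p τ ((a * j + b) % p) =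
      wsum (G i) (sel p a b τ M) - q * wsum (G i) M := by
    rw [wsum_sel, wsum_eq_range, Finset.mul_sum, ← Finset.sum_sub_distrib]
    refine Finset.sum_congr rfl fun j _ => ?_
    unfold cind
    split_ifs <;> ring
  have h2 : ∑ j ∈ Finset.range M.length, G i (M.getD j (0, 0)) ^ 2 =
      wsum (fun f => G i f ^ 2) M := by
    rw [wsum_eq_range M (fun f => G i f ^ 2)]
  have h3 := hab i
  rw [h1, h2] at h3
  have hWN : 0 ≤ wsum (w i) N := wsum_nonneg fun e _ => hw i e
  have hWM : 0 ≤ wsum (w i) M := wsum_nonneg fun e _ => hw i e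
  have hlosstot : wsum (loss (w i) N) M ≤ 2 * wsum (w i) N := wsum_loss_le hM fun e _ => hw i e
  -- bound on the sum of squares
  have h4 : wsum (fun f => G i f ^ 2) M ≤ 2 * θ i * (wsum (w i) M + 2 * wsum (w i) N) := by
    have h5 : wsum (fun f => G i f ^ 2) M ≤
        wsum (fun f => 2 * θ i * (w i f + loss (w i) N f)) M := by
      refine wsum_le_wsum fun f hf => ?_
      have b1 := hw i f
      have b2 := hθM i f hf
      have b3 : 0 ≤ loss (w i) N f := loss_nonneg (fun e _ => hw i e) f
      have b4 : loss (w i) N f ≤ 2 * θ i := loss_le hN (hθ i) (hθN i) f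
      have b5 := hθ i
      simp only [hG]
      have c1 : w i f * w i f ≤ θ i * w i f := mul_le_mul_of_nonneg_right b2 b1
      have c2 : loss (w i) N f * loss (w i) N f ≤ 2 * θ i * loss (w i) N f :=
        mul_le_mul_of_nonneg_right b4 b3
      have c3 : 0 ≤ w i f * loss (w i) N f := mul_nonneg b1 b3
      have c4 : 0 ≤ θ i * w i f := mul_nonneg b5 b1
      nlinarith
    refine h5.trans ?_
    rw [wsum_mul, wsum_add]
    have : 0 ≤ 2 * θ i := by have := hθ i; linarith
    exact mul_le_mul_of_nonneg_left (by linarith) this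
  set Y : ℝ := wsum (w i) M + 2 * wsum (w i) N with hY
  have hY0 : 0 ≤ Y := by linarith
  have h6 : (wsum (G i) (sel p a b τ M) - q * wsum (G i) M) ^ 2 ≤
      (q * Y / 4 + 2 * k * θ i) ^ 2 := by
    have hk0 : (0 : ℝ) ≤ k := Nat.cast_nonneg k
    have hkq : 0 ≤ (k : ℝ) * q := mul_nonneg hk0 hq0
    have h7 : (wsum (G i) (sel p a b τ M) - q * wsum (G i) M) ^ 2 ≤
        k * q * (2 * θ i * Y) := h3.trans (mul_le_mul_of_nonneg_left h4 hkq)
    refine h7.trans ?_
    nlinarith [sq_nonneg (q * Y / 4 - 2 * k * θ i)]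
  have h8 : 0 ≤ q * Y / 4 + 2 * k * θ i := by
    have := hθ i
    have hk0 : (0 : ℝ) ≤ k := Nat.cast_nonneg k
    positivity
  have h9 := abs_le_of_sq_le_sq' h6 h8
  have h10 : wsum (G i) M = wsum (w i) M - wsum (loss (w i) N) M := wsum_sub _ _ _
  have h11 : wsum (G i) (sel p a b τ M) = wsum (w i) (sel p a b τ M) -
      wsum (loss (w i) N) (sel p a b τ M) := wsum_sub _ _ _
  have h12 := wsum_cleanup (w := w i) (N := N) (sel p a b τ M) (fun e _ => hw i e)
  unfold merge
  rw [wsum_append]
  have h13 : q * wsum (loss (w i) N) M ≤ q * (2 * wsum (w i) N) :=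
    mul_le_mul_of_nonneg_left hlosstot hq0
  have h14 := h9.1
  rw [h10, h11] at h14
  have h15 : q * Y = q * wsum (w i) M + 2 * (q * wsum (w i) N) := by rw [hY]; ring
  rw [h15] at h14
  nlinarith

/-! ### the greedy algorithm -/

/-- an element of the list with the largest score -/
def best (s : ℕ × ℕ → ℚ) (E : List (ℕ × ℕ)) : Option (ℕ × ℕ) :=
  E.foldl (fun o e => o.elim (some e) (fun f => if s f < s e then some e else some f)) none

theorem foldl_best (s : ℕ × ℕ → ℚ) (E : List (ℕ × ℕ)) (f : ℕ × ℕ) :
    ∃ g, E.foldl (fun o e => o.elim (some e) (fun f => if s f < s e then some e else some f))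
      (some f) = some g ∧ (g = f ∨ g ∈ E) ∧ s f ≤ s g ∧ ∀ e ∈ E, s e ≤ s g := by
  induction E generalizing f with
  | nil => exact ⟨f, rfl, Or.inl rfl, le_rfl, by simp⟩
  | cons e E ih =>
    rw [List.foldl_cons]
    simp only [Option.elim_some]
    by_cases h : s f < s e
    · rw [if_pos h]
      obtain ⟨g, h1, h2, h3, h4⟩ := ih e
      refine ⟨g, h1, Or.inr ?_, h.le.trans h3, ?_⟩
      · rcases h2 with rfl | h2
        · simp
        · simp [h2]
      · intro e' he'
        rcases List.mem_cons.1 he' with rfl | he'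
        · exact h3
        · exact h4 e' he'
    · rw [if_neg h]
      obtain ⟨g, h1, h2, h3, h4⟩ := ih f
      refine ⟨g, h1, ?_, h3, ?_⟩
      · rcases h2 with rfl | h2
        · exact Or.inl rfl
        · exact Or.inr (by simp [h2])
      · intro e' he'
        rcases List.mem_cons.1 he' with rfl | he'
        · exact (not_lt.1 h).trans h3
        · exact h4 e' he'

theorem best_spec (s : ℕ × ℕ → ℚ) (E : List (ℕ × ℕ)) :
    (E = [] ∧ best s E = none) ∨
      ∃ g, best s E = some g ∧ g ∈ E ∧ ∀ e ∈ E, s e ≤ s g := by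
  cases E with
  | nil => exact Or.inl ⟨rfl, rfl⟩
  | cons e E =>
    right
    obtain ⟨g, h1, h2, h3, h4⟩ := foldl_best s E e
    refine ⟨g, ?_, ?_, ?_⟩
    · unfold best
      rw [List.foldl_cons]
      exact h1
    · rcases h2 with rfl | h2
      · simp
      · simp [h2]
    · intro e' he'
      rcases List.mem_cons.1 he' with rfl | he'
      · exact h3
      · exact h4 e' he'

/-- one greedy step -/
def gstep (s : ℕ × ℕ → ℚ) (x : List (ℕ × ℕ) × List (ℕ × ℕ)) :
    List (ℕ × ℕ) × List (ℕ × ℕ) :=
  (best s x.1).elim x (fun e => (x.1.filter (fun f => !clash e f), e :: x.2))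

/-- the greedy matching -/
def greedy (s : ℕ × ℕ → ℚ) (E : List (ℕ × ℕ)) : List (ℕ × ℕ) :=
  ((gstep s)^[E.length] (E, [])).2

structure GInv (s : ℕ × ℕ → ℚ) (E0 : List (ℕ × ℕ)) (x : List (ℕ × ℕ) × List (ℕ × ℕ)) :
    Prop where
  sub1 : ∀ e ∈ x.1, e ∈ E0
  sub2 : ∀ e ∈ x.2, e ∈ E0
  isM : IsM x.2
  sep : ∀ e ∈ x.1, ∀ f ∈ x.2, clash f e = false
  dom : ∀ e ∈ E0, e ∈ x.1 ∨ ∃ f ∈ x.2, clash f e = true ∧ s e ≤ s f

theorem ginv_step {s : ℕ × ℕ → ℚ} {E0 : List (ℕ × ℕ)} {x : List (ℕ × ℕ) × List (ℕ × ℕ)}
    (h : GInv s E0 x) : GInv s E0 (gstep s x) := by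
  rcases best_spec s x.1 with ⟨-, hb⟩ | ⟨g, hb, hg, hmax⟩
  · unfold gstep
    rw [hb]
    exact h
  · unfold gstep
    rw [hb]
    simp only [Option.elim_some]
    refine ⟨?_, ?_, ?_, ?_, ?_⟩
    · intro e he
      exact h.sub1 e (List.mem_filter.1 he).1
    · intro e he
      rcases List.mem_cons.1 he with rfl | he
      · exact h.sub1 _ hg
      · exact h.sub2 e he
    · unfold IsM
      rw [List.pairwise_cons]
      refine ⟨fun f hf => ?_, h.isM⟩
      rw [clash_comm]
      exact h.sep g hg f hf
    · intro e he f hf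
      rcases List.mem_cons.1 hf with rfl | hf
      · simpa using (List.mem_filter.1 he).2
      · exact h.sep e (List.mem_filter.1 he).1 f hf
    · intro e he
      rcases h.dom e he with h1 | ⟨f, hf, h2, h3⟩
      · by_cases hc : clash g e = true
        · exact Or.inr ⟨g, by simp, hc, hmax e h1⟩
        · left
          rw [List.mem_filter]
          exact ⟨h1, by simpa using hc⟩
      · exact Or.inr ⟨f, by simp [hf], h2, h3⟩

theorem gstep_length {s : ℕ × ℕ → ℚ} (x : List (ℕ × ℕ) × List (ℕ × ℕ)) :
    (gstep s x).1.length ≤ x.1.length - 1 := by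
  rcases best_spec s x.1 with ⟨h0, hb⟩ | ⟨g, hb, hg, hmax⟩
  · unfold gstep
    rw [hb]
    simp [h0]
  · unfold gstep
    rw [hb]
    simp only [Option.elim_some]
    have : (x.1.filter (fun f => !clash g f)).length < x.1.length := by
      rw [List.length_filter_lt_length_iff_exists]
      exact ⟨g, hg, by simp [clash_self]⟩
    omega

theorem greedy_spec (s : ℕ × ℕ → ℚ) (E : List (ℕ × ℕ)) :
    (∀ e ∈ greedy s E, e ∈ E) ∧ IsM (greedy s E) ∧
      ∀ e ∈ E, ∃ f ∈ greedy s E, clash f e = true ∧ s e ≤ s f := by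
  have key : ∀ i, GInv s E ((gstep s)^[i] (E, [])) ∧
      ((gstep s)^[i] (E, [])).1.length ≤ E.length - i := by
    intro i
    induction i with
    | zero =>
      refine ⟨⟨fun e he => he, by simp, List.Pairwise.nil, by simp, fun e he => Or.inl he⟩, by simp⟩
    | succ i ih =>
      rw [Function.iterate_succ_apply']
      refine ⟨ginv_step ih.1, ?_⟩
      have := gstep_length (s := s) ((gstep s)^[i] (E, []))
      omega
  obtain ⟨h1, h2⟩ := key E.length
  refine ⟨h1.sub2, h1.isM, fun e he => ?_⟩
  rcases h1.dom e he with h3 | h3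
  · have : ((gstep s)^[E.length] (E, [])).1 = [] := by
      rw [← List.length_eq_zero_iff]; omega
    rw [this] at h3
    simp at h3
  · exact h3

/-- The greedy matching is a 4-approximation. -/
theorem greedy_four (s : ℕ × ℕ → ℚ) (hs : ∀ e, 0 ≤ s e) (E R : List (ℕ × ℕ))
    (hRE : ∀ e ∈ R, e ∈ E) (h1 : (R.map Prod.fst).Nodup) (h2 : (R.map Prod.snd).Nodup) :
    wsum s R ≤ 4 * wsum s (greedy s E) := by
  obtain ⟨-, -, hdom⟩ := greedy_spec s E
  set M := greedy s E with hM
  have key : wsum s R ≤ wsum (fun f => s f * (R.filter (fun e => clash f e)).length) M := by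
    clear h1 h2
    induction R with
    | nil =>
      simp only [wsum_nil]
      exact wsum_nonneg fun f _ => by simp
    | cons e R ih =>
      have ih := ih (fun e he => hRE e (by simp [he]))
      obtain ⟨f, hf, hc, hle⟩ := hdom e (hRE e (by simp))
      have h3 : ∀ f, s f * (((e :: R).filter (fun e => clash f e)).length : ℚ) =
          (if clash f e then s f else 0) + s f * ((R.filter (fun e => clash f e)).length : ℚ) := by
        intro f
        rw [List.filter_cons]
        split_ifs
        · rw [List.length_cons]; push_cast; ring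
        · ring
      simp only [h3]
      rw [wsum_add, wsum_cons]
      have h4 : (if clash f e then s f else 0) ≤ wsum (fun f => if clash f e then s f else 0) M :=
        mem_le_wsum (g := fun f => if clash f e then s f else 0)
          (fun f _ => by split_ifs; exacts [hs f, le_rfl]) hf
      rw [if_pos hc] at h4
      linarith
  refine key.trans ?_
  rw [← wsum_mul]
  refine wsum_le_wsum fun f _ => ?_
  have h3 : (((R.filter (fun e => clash f e)).length : ℕ) : ℚ) ≤ 4 := by
    exact_mod_cast filter_clash_length_four h1 h2 f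
  have := hs f
  nlinarith

end Pool.Agent.Helper83.MaxTSP
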