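import Pool.Agent.Helper83.MaxTSP.Light

/-! The heavy part and the assembly of the tour. -/

namespace Pool.Agent.Helper83.MaxTSP

/-- the edges of the cyclic sequence `h` -/
def cyc (h : List ℕ) : List (ℕ × ℕ) := h.zip (h.rotate 1)

theorem cyc_fst (h : List ℕ) : (cyc h).map Prod.fst = h :=
  List.map_fst_zip (by simp)

theorem cyc_snd (h : List ℕ) : (cyc h).map Prod.snd = h.rotate 1 :=
  List.map_snd_zip (by simp)

theorem cyc_rotate_perm (h : List ℕ) (j : ℕ) : (cyc (h.rotate j)).Perm (cyc h) := by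
  have h1 : cyc (h.rotate j) = (cyc h).rotate j := by
    unfold cyc
    rw [List.zip_eq_zipWith, List.zip_eq_zipWith, List.zipWith_rotate_distrib _ _ _ _ (by simp),
      List.rotate_rotate, List.rotate_rotate, add_comm]
  rw [h1]
  exact List.rotate_perm _ _

theorem wsum_perm {K : Type} [AddCommMonoid K] (g : ℕ × ℕ → K) {l m : List (ℕ × ℕ)}
    (h : l.Perm m) : wsum g l = wsum g m := (h.map g).sum_eq

theorem wsum_sublist {g : ℕ × ℕ → ℚ} {l m : List (ℕ × ℕ)} (h : l.Sublist m)
    (hg : ∀ e, 0 ≤ g e) : wsum g l ≤ wsum g m := by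
  induction h with
  | slnil => simp
  | cons a _ ih => rw [wsum_cons]; have := hg a; linarith
  | cons_cons a _ ih => rw [wsum_cons, wsum_cons]; linarith

theorem wsum_subset {g : ℕ × ℕ → ℚ} {l m : List (ℕ × ℕ)} (hl : l.Nodup) (h : l ⊆ m)
    (hg : ∀ e, 0 ≤ g e) : wsum g l ≤ wsum g m := by
  obtain ⟨l', h1, h2⟩ := List.subperm_of_subset hl h
  rw [← wsum_perm g h1]
  exact wsum_sublist h2 hg

theorem wsum_filter_mono {g : ℕ × ℕ → ℚ} {l : List (ℕ × ℕ)} {p q : ℕ × ℕ → Bool}
    (hg : ∀ e, 0 ≤ g e) (h : ∀ e ∈ l, p e = true → q e = true) :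
    wsum g (l.filter p) ≤ wsum g (l.filter q) := by
  induction l with
  | nil => simp
  | cons e l ih =>
    have ih := ih (fun f hf => h f (by simp [hf]))
    rw [List.filter_cons, List.filter_cons]
    have h1 := h e (by simp)
    have h2 := hg e
    split_ifs with h3 h4 h4
    · rw [wsum_cons, wsum_cons]; linarith
    · exact absurd (h1 h3) h4
    · rw [wsum_cons]; linarith
    · exact ih

/-! ### decomposition -/

/-- the edges with both endpoints in `P` -/
def inside (E : List (ℕ × ℕ)) (P : Finset ℕ) : List (ℕ × ℕ) :=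
  E.filter (fun e => decide (e.1 ∈ P ∧ e.2 ∈ P))

/-- the edges with at least one endpoint in `P` -/
def touch (E : List (ℕ × ℕ)) (P : Finset ℕ) : List (ℕ × ℕ) :=
  E.filter (fun e => decide (e.1 ∈ P ∨ e.2 ∈ P))

/-- the edges with no endpoint in `P` -/
def outside (E : List (ℕ × ℕ)) (P : Finset ℕ) : List (ℕ × ℕ) :=
  E.filter (fun e => !decide (e.1 ∈ P ∨ e.2 ∈ P))

/-- add to `P` all neighbours -/
def grow (E : List (ℕ × ℕ)) (P : Finset ℕ) : Finset ℕ :=
  P ∪ ((E.filter (fun e => decide (e.1 ∈ P))).map Prod.snd).toFinset ∪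
    ((E.filter (fun e => decide (e.2 ∈ P))).map Prod.fst).toFinset

theorem subset_grow (E : List (ℕ × ℕ)) (P : Finset ℕ) : P ⊆ grow E P := by
  intro v hv
  unfold grow
  rw [Finset.mem_union, Finset.mem_union]
  exact Or.inl (Or.inl hv)

theorem grow_card (E : List (ℕ × ℕ)) (P : Finset ℕ) (h1 : (E.map Prod.fst).Nodup)
    (h2 : (E.map Prod.snd).Nodup) : (grow E P).card ≤ 3 * P.card := by
  have a1 : (E.filter (fun e => decide (e.1 ∈ P))).length ≤ P.card := by
    have b1 : ((E.filter (fun e => decide (e.1 ∈ P))).map Prod.fst).Nodup :=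
      h1.sublist (List.filter_sublist.map _)
    have b2 : ((E.filter (fun e => decide (e.1 ∈ P))).map Prod.fst).toFinset ⊆ P := by
      intro v hv
      rw [List.mem_toFinset, List.mem_map] at hv
      obtain ⟨e, he, rfl⟩ := hv
      simpa using (List.mem_filter.1 he).2
    have b3 := Finset.card_le_card b2
    rwa [List.toFinset_card_of_nodup b1, List.length_map] at b3
  have a2 : (E.filter (fun e => decide (e.2 ∈ P))).length ≤ P.card := by
    have b1 : ((E.filter (fun e => decide (e.2 ∈ P))).map Prod.snd).Nodup :=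
      h2.sublist (List.filter_sublist.map _)
    have b2 : ((E.filter (fun e => decide (e.2 ∈ P))).map Prod.snd).toFinset ⊆ P := by
      intro v hv
      rw [List.mem_toFinset, List.mem_map] at hv
      obtain ⟨e, he, rfl⟩ := hv
      simpa using (List.mem_filter.1 he).2
    have b3 := Finset.card_le_card b2
    rwa [List.toFinset_card_of_nodup b1, List.length_map] at b3
  have a3 : ((E.filter (fun e => decide (e.1 ∈ P))).map Prod.snd).toFinset.card ≤ P.card :=
    (List.toFinset_card_le _).trans (by rwa [List.length_map])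
  have a4 : ((E.filter (fun e => decide (e.2 ∈ P))).map Prod.fst).toFinset.card ≤ P.card :=
    (List.toFinset_card_le _).trans (by rwa [List.length_map])
  unfold grow
  have a5 := Finset.card_union_le (P ∪ ((E.filter (fun e => decide (e.1 ∈ P))).map
    Prod.snd).toFinset) ((E.filter (fun e => decide (e.2 ∈ P))).map Prod.fst).toFinset
  have a6 := Finset.card_union_le P ((E.filter (fun e => decide (e.1 ∈ P))).map
    Prod.snd).toFinset
  omega

theorem touch_inside_grow (E : List (ℕ × ℕ)) (P : Finset ℕ) {e : ℕ × ℕ} (he : e ∈ E)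
    (h : e.1 ∈ P ∨ e.2 ∈ P) : e.1 ∈ grow E P ∧ e.2 ∈ grow E P := by
  rcases h with h | h
  · refine ⟨subset_grow E P h, ?_⟩
    unfold grow
    rw [Finset.mem_union, Finset.mem_union]
    refine Or.inl (Or.inr ?_)
    rw [List.mem_toFinset, List.mem_map]
    exact ⟨e, List.mem_filter.2 ⟨he, by simpa using h⟩, rfl⟩
  · refine ⟨?_, subset_grow E P h⟩
    unfold grow
    rw [Finset.mem_union]
    refine Or.inr ?_
    rw [List.mem_toFinset, List.mem_map]
    exact ⟨e, List.mem_filter.2 ⟨he, by simpa using h⟩, rfl⟩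

theorem inside_mono {g : ℕ × ℕ → ℚ} (hg : ∀ e, 0 ≤ g e) (E : List (ℕ × ℕ)) {P Q : Finset ℕ}
    (h : P ⊆ Q) : wsum g (inside E P) ≤ wsum g (inside E Q) := by
  refine wsum_filter_mono hg fun e _ he => ?_
  simp only [decide_eq_true_eq] at he ⊢
  exact ⟨h he.1, h he.2⟩

theorem touch_le_inside_grow {g : ℕ × ℕ → ℚ} (hg : ∀ e, 0 ≤ g e) (E : List (ℕ × ℕ))
    (P : Finset ℕ) : wsum g (touch E P) ≤ wsum g (inside E (grow E P)) := by
  refine wsum_filter_mono hg fun e he hP => ?_
  simp only [decide_eq_true_eq] at hP ⊢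
  exact touch_inside_grow E P he hP

theorem heavy_length (E : List (ℕ × ℕ)) (g : ℕ × ℕ → ℚ) (hg : ∀ e, 0 ≤ g e) (D : ℕ) :
    (E.filter (fun e => decide (wsum g E < D * g e))).length ≤ D := by
  set F := E.filter (fun e => decide (wsum g E < D * g e)) with hF
  have hW : 0 ≤ wsum g E := wsum_nonneg fun e _ => hg e
  have h1 : ∀ e ∈ F, wsum g E < D * g e := fun e he => by simpa using (List.mem_filter.1 he).2
  have h2 : (F.length : ℚ) * wsum g E ≤ D * wsum g F := by
    clear_value F
    clear hF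
    induction F with
    | nil => simp
    | cons e F ih =>
      rw [wsum_cons, List.length_cons]
      have := h1 e (by simp)
      have := ih (fun f hf => h1 f (by simp [hf]))
      push_cast
      linarith
  have h3 : wsum g F ≤ wsum g E := wsum_filter_le _ fun e _ => hg e
  rcases hW.eq_or_lt with h0 | h0
  · have : F = [] := by
      by_contra hne
      obtain ⟨e, he⟩ := List.exists_mem_of_ne_nil F hne
      have h4 := h1 e he
      have h5 : g e ≤ wsum g E := mem_le_wsum (fun e _ => hg e) (List.mem_filter.1 he).1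
      rw [← h0] at h4 h5
      have h6 := hg e
      have h7 : g e = 0 := le_antisymm h5 h6
      rw [h7, mul_zero] at h4
      exact lt_irrefl _ h4
    rw [this]; simp
  · have h4 : (F.length : ℚ) * wsum g E ≤ D * wsum g E :=
      h2.trans (mul_le_mul_of_nonneg_left h3 (Nat.cast_nonneg D))
    have h5 : (F.length : ℚ) ≤ D := le_of_mul_le_mul_right h4 h0
    exact_mod_cast h5

/-- the vertices of heavy edges -/
def heavyV (k D : ℕ) (w : ℕ → ℕ × ℕ → ℚ) (E : List (ℕ × ℕ)) : Finset ℕ :=
  (Finset.range k).biUnion fun i =>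
    ((E.filter (fun e => decide (wsum (w i) E < D * w i e))).map Prod.fst).toFinset ∪
    ((E.filter (fun e => decide (wsum (w i) E < D * w i e))).map Prod.snd).toFinset

theorem heavyV_card (k D : ℕ) (w : ℕ → ℕ × ℕ → ℚ) (hw : ∀ i e, 0 ≤ w i e)
    (E : List (ℕ × ℕ)) : (heavyV k D w E).card ≤ k * (2 * D) := by
  unfold heavyV
  refine Finset.card_biUnion_le.trans ?_
  have : ∀ i ∈ Finset.range k,
      (((E.filter (fun e => decide (wsum (w i) E < D * w i e))).map Prod.fst).toFinset ∪
      ((E.filter (fun e => decide (wsum (w i) E < D * w i e))).map Prod.snd).toFinset).card ≤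
      2 * D := by
    intro i _
    refine (Finset.card_union_le _ _).trans ?_
    have h1 := heavy_length E (w i) (hw i) D
    have h2 := List.toFinset_card_le
      ((E.filter (fun e => decide (wsum (w i) E < D * w i e))).map Prod.fst)
    have h3 := List.toFinset_card_le
      ((E.filter (fun e => decide (wsum (w i) E < D * w i e))).map Prod.snd)
    rw [List.length_map] at h2 h3
    omega
  refine (Finset.sum_le_sum this).trans ?_
  simp

theorem decomposition (k D : ℕ) (w : ℕ → ℕ × ℕ → ℚ) (hw : ∀ i e, 0 ≤ w i e)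
    (E : List (ℕ × ℕ)) (h1 : (E.map Prod.fst).Nodup) (h2 : (E.map Prod.snd).Nodup) :
    ∃ P : Finset ℕ, P.card ≤ 3 ^ k * (k * (2 * D)) ∧
      (∀ i < k, ∀ e ∈ outside E P, D * w i e ≤ wsum (w i) E) ∧
      ∀ i < k, wsum (w i) E ≤ 2 * wsum (w i) (inside E P) ∨
        wsum (w i) E ≤ 2 * wsum (w i) (outside E P) := by
  set P : ℕ → Finset ℕ := fun j => (grow E)^[j] (heavyV k D w E) with hP
  have hstep : ∀ j, P (j + 1) = grow E (P j) := fun j => by
    simp only [hP]; rw [Function.iterate_succ_apply']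
  have hmono : ∀ a b, a ≤ b → P a ⊆ P b := by
    intro a b hab
    induction b, hab using Nat.le_induction with
    | base => exact subset_rfl
    | succ b _ ih => rw [hstep]; exact ih.trans (subset_grow _ _)
  have hcard : ∀ j, (P j).card ≤ 3 ^ j * (k * (2 * D)) := by
    intro j
    induction j with
    | zero => simpa [hP] using heavyV_card k D w hw E
    | succ j ih =>
      rw [hstep]
      refine (grow_card E (P j) h1 h2).trans ?_
      rw [pow_succ]
      nlinarith
  have hout : ∀ i, ∀ P : Finset ℕ, wsum (w i) (outside E P) =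
      wsum (w i) E - wsum (w i) (touch E P) := fun i P => wsum_filter_not _ _ _
  have hgood : ∃ j ≤ k, ∀ i < k, wsum (w i) E ≤ 2 * wsum (w i) (inside E (P j)) ∨
        wsum (w i) E ≤ 2 * wsum (w i) (outside E (P j)) := by
    by_contra hcon
    push Not at hcon
    have hex : ∀ j : Fin (k + 1), ∃ i : Fin k,
        2 * wsum (w i) (inside E (P j)) < wsum (w i) E ∧
        2 * wsum (w i) (outside E (P j)) < wsum (w i) E := by
      intro j
      obtain ⟨i, hi, h3, h4⟩ := hcon j (by omega)
      exact ⟨⟨i, hi⟩, h3, h4⟩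
    choose f hf1 hf2 using hex
    obtain ⟨a, b, hab, hfab⟩ := Fintype.exists_ne_map_eq_of_card_lt f (by simp)
    have key : ∀ a b : Fin (k + 1), a < b → f a = f b → False := by
      intro a b hlt hfab
      have h3 := hf2 a
      have h4 := hf1 b
      rw [hout] at h3
      rw [hfab] at h3
      have h5 := touch_le_inside_grow (hw (f b)) E (P a)
      rw [← hstep] at h5
      have h6 := inside_mono (hw (f b)) E (hmono (a + 1) b (by
        have : (a : ℕ) < b := hlt
        omega))
      linarith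
    rcases lt_or_gt_of_ne hab with h | h
    · exact key a b h hfab
    · exact key b a h hfab.symm
  obtain ⟨j, hj, hgoodj⟩ := hgood
  refine ⟨P j, (hcard j).trans ?_, ?_, hgoodj⟩
  · exact Nat.mul_le_mul_right _ (Nat.pow_le_pow_right (by norm_num) hj)
  · intro i hi e he
    by_contra hlt
    push Not at hlt
    have he' := List.mem_filter.1 he
    have h3 : e.1 ∈ heavyV k D w E := by
      unfold heavyV
      rw [Finset.mem_biUnion]
      refine ⟨i, Finset.mem_range.2 hi, ?_⟩
      rw [Finset.mem_union]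
      left
      rw [List.mem_toFinset, List.mem_map]
      exact ⟨e, List.mem_filter.2 ⟨he'.1, by simpa using hlt⟩, rfl⟩
    have h4 : e.1 ∈ P j := hmono 0 j (Nat.zero_le _) h3
    have h5 := he'.2
    simp only [Bool.not_eq_true', decide_eq_false_iff_not] at h5
    exact h5 (Or.inl h4)

/-! ### the tour -/

/-- the edges available for the matchings -/
def avail (k n : ℕ) (w : ℕ → ℕ × ℕ → ℚ) (L : List ℕ) (Θ : List (ℕ × ℕ)) : List (ℕ × ℕ) :=
  ((List.range n).product (List.range n)).filter (fun e =>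
    !decide (e.1 = e.2) && !decide (e.1 ∈ L) && !decide (e.2 ∈ L) &&
      (List.range k).all (fun i => decide (w i e ≤ w i (Θ.getD i (0, 0)))))

theorem mem_avail {k n : ℕ} {w : ℕ → ℕ × ℕ → ℚ} {L : List ℕ} {Θ : List (ℕ × ℕ)}
    {e : ℕ × ℕ} : e ∈ avail k n w L Θ ↔ e.1 < n ∧ e.2 < n ∧ e.1 ≠ e.2 ∧ e.1 ∉ L ∧ e.2 ∉ L ∧
      ∀ i < k, w i e ≤ w i (Θ.getD i (0, 0)) := by
  unfold avail
  rw [List.mem_filter]
  obtain ⟨a, b⟩ := e
  have : (a, b) ∈ (List.range n).product (List.range n) ↔ a < n ∧ b < n := by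
    rw [List.pair_mem_product, List.mem_range, List.mem_range]
  rw [this]
  simp only [Bool.and_eq_true, Bool.not_eq_true', decide_eq_false_iff_not, List.all_eq_true,
    List.mem_range, decide_eq_true_eq]
  tauto

/-- vertices of a matching in sequence -/
def flat (N : List (ℕ × ℕ)) : List ℕ := N.flatMap (fun e => [e.1, e.2])

/-- the tour which starts with `L`, continues with the edges of `N` and then visits the rest -/
def tour (n : ℕ) (L : List ℕ) (N : List (ℕ × ℕ)) : List ℕ :=
  (L ++ flat N) ++ (List.range n).filter (fun v => !decide (v ∈ L ++ flat N))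

theorem mem_flat {N : List (ℕ × ℕ)} {v : ℕ} : v ∈ flat N ↔ ∃ e ∈ N, v = e.1 ∨ v = e.2 := by
  simp [flat]

theorem flat_nodup {N : List (ℕ × ℕ)} (hN : IsM N) (h : ∀ e ∈ N, e.1 ≠ e.2) : (flat N).Nodup := by
  unfold flat
  rw [List.nodup_flatMap]
  refine ⟨fun e he => by simpa using h e he, ?_⟩
  refine List.Pairwise.imp ?_ hN
  intro e f hef
  obtain ⟨h1, h2, h3, h4⟩ := (clash_false_iff _ _).1 hef
  intro v hv hv'
  simp only [List.mem_cons, List.not_mem_nil, or_false] at hv hv'
  rcases hv with rfl | rfl <;> rcases hv' with h | h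
  · exact h1 h
  · exact h2 h
  · exact h3 h
  · exact h4 h

theorem tour_valid {n : ℕ} {L : List ℕ} {N : List (ℕ × ℕ)} (hL : L.Nodup) (hLn : ∀ v ∈ L, v < n)
    (hN : IsM N) (hN' : ∀ e ∈ N, e.1 < n ∧ e.2 < n ∧ e.1 ≠ e.2 ∧ e.1 ∉ L ∧ e.2 ∉ L) :
    (tour n L N).Nodup ∧ ∀ v, v ∈ tour n L N ↔ v < n := by
  have hflat : (flat N).Nodup := flat_nodup hN fun e he => (hN' e he).2.2.1
  have hflatn : ∀ v ∈ flat N, v < n ∧ v ∉ L := by
    intro v hv
    obtain ⟨e, he, h | h⟩ := mem_flat.1 hv
    · rw [h]; exact ⟨(hN' e he).1, (hN' e he).2.2.2.1⟩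
    · rw [h]; exact ⟨(hN' e he).2.1, (hN' e he).2.2.2.2⟩
  have hA : (L ++ flat N).Nodup := by
    rw [List.nodup_append]
    exact ⟨hL, hflat, fun a ha b hb hab => (hflatn b hb).2 (hab ▸ ha)⟩
  constructor
  · unfold tour
    rw [List.nodup_append]
    refine ⟨hA, List.Nodup.filter _ List.nodup_range, fun a ha b hb hab => ?_⟩
    have := (List.mem_filter.1 hb).2
    simp only [Bool.not_eq_true', decide_eq_false_iff_not] at this
    exact this (hab ▸ ha)
  · intro v
    unfold tour
    rw [List.mem_append, List.mem_filter, List.mem_range]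
    constructor
    · rintro (h | h)
      · rcases List.mem_append.1 h with h | h
        · exact hLn v h
        · exact (hflatn v h).1
      · exact h.1
    · intro hv
      by_cases h : v ∈ L ++ flat N
      · exact Or.inl h
      · exact Or.inr ⟨hv, by simpa using h⟩

/-- `x` is followed by `y` in `l` -/
def Adj (l : List ℕ) (x y : ℕ) : Prop := ∃ A B, l = A ++ x :: y :: B

theorem Adj.append_left {l : List ℕ} {x y : ℕ} (h : Adj l x y) (m : List ℕ) :
    Adj (m ++ l) x y := by
  obtain ⟨A, B, rfl⟩ := h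
  exact ⟨m ++ A, B, by simp⟩

theorem Adj.append_right {l : List ℕ} {x y : ℕ} (h : Adj l x y) (m : List ℕ) :
    Adj (l ++ m) x y := by
  obtain ⟨A, B, rfl⟩ := h
  exact ⟨A, B ++ m, by simp⟩

theorem Adj.filter {l : List ℕ} {x y : ℕ} (h : Adj l x y) (p : ℕ → Bool) (hx : p x = true)
    (hy : p y = true) : Adj (l.filter p) x y := by
  obtain ⟨A, B, rfl⟩ := h
  refine ⟨A.filter p, B.filter p, ?_⟩
  rw [List.filter_append, List.filter_cons_of_pos hx, List.filter_cons_of_pos hy]

theorem Adj.flat {N : List (ℕ × ℕ)} {e : ℕ × ℕ} (h : e ∈ N) : Adj (flat N) e.1 e.2 := by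
  obtain ⟨A, B, rfl⟩ := List.mem_iff_append.1 h
  exact ⟨Pool.Agent.Helper83.MaxTSP.flat A, Pool.Agent.Helper83.MaxTSP.flat B, by
    simp [Pool.Agent.Helper83.MaxTSP.flat]⟩

theorem mem_zip_of_adj (u : ℕ) (t : List ℕ) (v : ℕ) {x y : ℕ} (h : Adj (v :: t) x y) :
    (x, y) ∈ (v :: t).zip (t ++ [u]) := by
  induction t generalizing v with
  | nil =>
    obtain ⟨A, B, h⟩ := h
    have := congrArg List.length h
    simp at this
    omega
  | cons v' t ih =>
    obtain ⟨A, B, h⟩ := h
    cases A with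
    | nil =>
      simp only [List.nil_append, List.cons.injEq] at h
      obtain ⟨rfl, rfl, rfl⟩ := h
      simp
    | cons a A =>
      simp only [List.cons_append, List.cons.injEq] at h
      have := ih v' ⟨A, B, h.2⟩
      rw [List.cons_append, List.zip_cons_cons]
      exact List.mem_cons_of_mem _ this

theorem adj_of_mem_zip (u : ℕ) (t : List ℕ) (v : ℕ) {x y : ℕ}
    (h : (x, y) ∈ (v :: t).zip (t ++ [u])) : Adj (v :: t) x y ∨ y = u := by
  induction t generalizing v with
  | nil =>
    simp at h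
    exact Or.inr h.2
  | cons v' t ih =>
    rw [List.cons_append, List.zip_cons_cons, List.mem_cons] at h
    rcases h with h | h
    · rw [Prod.mk.injEq] at h
      obtain ⟨rfl, rfl⟩ := h
      exact Or.inl ⟨[], t, rfl⟩
    · rcases ih v' h with h | h
      · obtain ⟨A, B, h⟩ := h
        exact Or.inl ⟨v :: A, B, by rw [h]; rfl⟩
      · exact Or.inr h

theorem cyc_cons (v : ℕ) (t : List ℕ) : cyc (v :: t) = (v :: t).zip (t ++ [v]) := by
  unfold cyc
  rw [List.rotate_cons_succ, List.rotate_zero]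

theorem mem_cyc_of_adj {l : List ℕ} {x y : ℕ} (h : Adj l x y) : (x, y) ∈ cyc l := by
  cases l with
  | nil =>
    obtain ⟨A, B, h⟩ := h
    simp at h
  | cons v t =>
    rw [cyc_cons]
    exact mem_zip_of_adj v t v h

theorem cyc_ne {h : List ℕ} (hnd : h.Nodup) (h2 : 2 ≤ h.length) {e : ℕ × ℕ} (he : e ∈ cyc h) :
    e.1 ≠ e.2 := by
  unfold cyc at he
  rw [List.mem_iff_getElem] at he
  obtain ⟨j, hj, rfl⟩ := he
  rw [List.getElem_zip]
  simp only [ne_eq]
  rw [List.getElem_rotate, hnd.getElem_inj_iff]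
  have hj' : j < h.length := by
    rw [List.length_zip] at hj
    omega
  intro heq
  by_cases h3 : j + 1 < h.length
  · rw [Nat.mod_eq_of_lt h3] at heq; omega
  · have : j + 1 = h.length := by omega
    rw [this, Nat.mod_self] at heq
    omega

/-- The tour contains the heavy edges and the matching. -/
theorem tour_weight {n : ℕ} (h : List ℕ) (hnd : h.Nodup) (hmem : ∀ v, v ∈ h ↔ v < n)
    (P : Finset ℕ) (hhead : (∀ v ∈ h, v ∈ P) ∨ ∃ v t, h = v :: t ∧ v ∉ P)
    (N : List (ℕ × ℕ)) (hN : IsM N)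
    (hN' : ∀ e ∈ N, e.1 < n ∧ e.2 < n ∧ e.1 ≠ e.2 ∧ e.1 ∉ h.filter (fun v => decide (v ∈ P)) ∧
      e.2 ∉ h.filter (fun v => decide (v ∈ P)))
    (g : ℕ × ℕ → ℚ) (hg : ∀ e, 0 ≤ g e) :
    wsum g (inside (cyc h) P) + wsum g N ≤
      wsum g (cyc (tour n (h.filter (fun v => decide (v ∈ P))) N)) := by
  set L := h.filter (fun v => decide (v ∈ P)) with hL
  rw [← wsum_append]
  have hcnd : (cyc h).Nodup := List.Nodup.of_map Prod.fst (by rw [cyc_fst]; exact hnd)
  have hNnd : N.Nodup := by
    refine List.Pairwise.imp ?_ hN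
    rintro e f hef rfl
    rw [clash_self] at hef
    exact absurd hef (by simp)
  have hmemc : ∀ e ∈ cyc h, e.1 ∈ h ∧ e.2 ∈ h := by
    intro e he
    constructor
    · rw [← cyc_fst h]; exact List.mem_map_of_mem he
    · have : e.2 ∈ (cyc h).map Prod.snd := List.mem_map_of_mem he
      rw [cyc_snd, List.mem_rotate] at this
      exact this
  refine wsum_subset ?_ ?_ hg
  · rw [List.nodup_append]
    refine ⟨hcnd.filter _, hNnd, fun a ha b hb hab => ?_⟩
    subst hab
    have h1 := List.mem_filter.1 ha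
    have h2 := h1.2
    simp only [decide_eq_true_eq] at h2
    refine (hN' a hb).2.2.2.1 ?_
    rw [List.mem_filter]
    exact ⟨(hmemc a h1.1).1, by simpa using h2.1⟩
  · intro e he
    rcases List.mem_append.1 he with he | he
    · have h1 := List.mem_filter.1 he
      have h2 := h1.2
      simp only [decide_eq_true_eq] at h2
      rcases hhead with hall | ⟨v, t, hvt, hv⟩
      · -- everything is in `P`
        have hLh : L = h := by
          rw [hL, List.filter_eq_self]
          intro v hv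
          simpa using hall v hv
        have hNnil : N = [] := by
          by_contra hne
          obtain ⟨f, hf⟩ := List.exists_mem_of_ne_nil N hne
          have h3 := hN' f hf
          rw [hLh] at h3
          exact h3.2.2.2.1 ((hmem _).2 h3.1)
        have htour : tour n L N = h := by
          unfold tour
          rw [hNnil, hLh]
          have : (List.range n).filter (fun v => !decide (v ∈ h ++ flat [])) = [] := by
            rw [List.filter_eq_nil_iff]
            intro v hv
            rw [List.mem_range] at hv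
            simp [flat, (hmem v).2 hv]
          rw [this]
          simp [flat]
        rw [htour]
        exact h1.1
      · have h3 : Adj h e.1 e.2 := by
          have h4 := h1.1
          rw [hvt, cyc_cons] at h4
          rcases adj_of_mem_zip v t v h4 with h5 | h5
          · rw [hvt]; exact h5
          · exact absurd (h5 ▸ h2.2) hv
        have h4 : Adj L e.1 e.2 := h3.filter _ (by simpa using h2.1) (by simpa using h2.2)
        exact mem_cyc_of_adj (((h4.append_right _)).append_right _)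
    · exact mem_cyc_of_adj (((Adj.flat he).append_left _).append_right _)

/-- the bound on the length of the first part of the tour -/
def hbound (k : ℕ) : ℕ := 3 ^ k * (k * (2 * (1280 * (k + 1) ^ 2)))

/-- There is a good guess. -/
theorem exists_guess (k n : ℕ) (w : ℕ → ℕ × ℕ → ℚ) (hw : ∀ i e, 0 ≤ w i e) (h : List ℕ)
    (hnd : h.Nodup) (hmem : ∀ v, v ∈ h ↔ v < n) :
    ∃ p < 2 * n + 3, ∃ L : List ℕ, L.length ≤ hbound k ∧ (∀ v ∈ L, v < n) ∧
      ∃ Θ ∈ tuples k ((List.range (n + 1)).product (List.range (n + 1))),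
      ∃ ph : List (List ℕ × ℕ × ℕ × ℕ), ph.length = k + 1 ∧
      (∀ x ∈ ph, x.1 ∈ tuples k (List.range (2 * k * n + 1)) ∧ x.2.1 < 2 * n + 3 ∧
        x.2.2.1 < 2 * n + 3 ∧ x.2.2.2 < 2 * n + 3) ∧
      (tour n L (run k p w Θ (avail k n w L Θ) ph)).Nodup ∧
      (∀ v, v ∈ tour n L (run k p w Θ (avail k n w L Θ) ph) ↔ v < n) ∧
      ∀ i < k, 1 / 320 * wsum (w i) (cyc h) ≤
        wsum (w i) (cyc (tour n L (run k p w Θ (avail k n w L Θ) ph))) := by
  set D : ℕ := 1280 * (k + 1) ^ 2 with hD
  -- the prime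
  obtain ⟨p, hp, hnp, hp2⟩ : ∃ p, p.Prime ∧ n ≤ p ∧ p < 2 * n + 3 := by
    obtain ⟨p, h1, h2, h3⟩ := Nat.exists_prime_lt_and_le_two_mul (n + 1) (by omega)
    exact ⟨p, h1, by omega, by omega⟩
  obtain ⟨P, hPcard, hPlight, hPgood⟩ := decomposition k D w hw (cyc h)
    (by rw [cyc_fst]; exact hnd) (by rw [cyc_snd]; exact List.nodup_rotate.2 hnd)
  -- rotate
  obtain ⟨h', hrot, hhead⟩ : ∃ h', (∃ j, h' = h.rotate j) ∧
      ((∀ v ∈ h', v ∈ P) ∨ ∃ v t, h' = v :: t ∧ v ∉ P) := by
    by_cases hall : ∀ v ∈ h, v ∈ P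
    · exact ⟨h, ⟨0, by simp⟩, Or.inl hall⟩
    · push Not at hall
      obtain ⟨v, hv, hvP⟩ := hall
      obtain ⟨A, B, hAB⟩ := List.mem_iff_append.1 hv
      refine ⟨v :: B ++ A, ⟨A.length, ?_⟩, Or.inr ⟨v, B ++ A, rfl, hvP⟩⟩
      rw [hAB, List.rotate_append_length_eq]
  obtain ⟨j, hj⟩ := hrot
  have hperm : (cyc h').Perm (cyc h) := by rw [hj]; exact cyc_rotate_perm h j
  have hnd' : h'.Nodup := by rw [hj]; exact List.nodup_rotate.2 hnd
  have hmem' : ∀ v, v ∈ h' ↔ v < n := by intro v; rw [hj, List.mem_rotate]; exact hmem v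
  have hins : ∀ i, wsum (w i) (inside (cyc h') P) = wsum (w i) (inside (cyc h) P) :=
    fun i => wsum_perm _ (hperm.filter _)
  set L := h'.filter (fun v => decide (v ∈ P)) with hL
  have hLnd : L.Nodup := hnd'.filter _
  have hLn : ∀ v ∈ L, v < n := fun v hv => (hmem' v).1 (List.mem_filter.1 hv).1
  have hLP : ∀ v ∈ L, v ∈ P := fun v hv => by simpa using (List.mem_filter.1 hv).2
  have hLlen : L.length ≤ hbound k := by
    have h1 : L.toFinset ⊆ P := fun v hv => hLP v (List.mem_toFinset.1 hv)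
    have h2 := Finset.card_le_card h1
    rw [List.toFinset_card_of_nodup hLnd] at h2
    exact h2.trans hPcard
  -- validity for arbitrary guesses
  have hvalid : ∀ Θ ph, (tour n L (run k p w Θ (avail k n w L Θ) ph)).Nodup ∧
      (∀ v, v ∈ tour n L (run k p w Θ (avail k n w L Θ) ph) ↔ v < n) := by
    intro Θ ph
    obtain ⟨g1, g2⟩ := run_isM k p w Θ (avail k n w L Θ) ph
    refine tour_valid hLnd hLn g1 fun e he => ?_
    obtain ⟨a1, a2, a3, a4, a5, -⟩ := mem_avail.1 (g2 e he)
    exact ⟨a1, a2, a3, a4, a5⟩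
  have hweight : ∀ Θ ph i, wsum (w i) (inside (cyc h) P) +
      wsum (w i) (run k p w Θ (avail k n w L Θ) ph) ≤
      wsum (w i) (cyc (tour n L (run k p w Θ (avail k n w L Θ) ph))) := by
    intro Θ ph i
    rw [← hins]
    obtain ⟨g1, g2⟩ := run_isM k p w Θ (avail k n w L Θ) ph
    refine tour_weight h' hnd' hmem' P hhead _ g1 (fun e he => ?_) (w i) (hw i)
    obtain ⟨a1, a2, a3, a4, a5, -⟩ := mem_avail.1 (g2 e he)
    exact ⟨a1, a2, a3, a4, a5⟩
  have hWnn : ∀ i l, 0 ≤ wsum (w i) l := fun i l => wsum_nonneg fun e _ => hw i e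
  set R := outside (cyc h) P with hR
  -- trivial guesses
  have htriv : ∃ Θ ∈ tuples k ((List.range (n + 1)).product (List.range (n + 1))),
      ∃ ph : List (List ℕ × ℕ × ℕ × ℕ), ph.length = k + 1 ∧
      (∀ x ∈ ph, x.1 ∈ tuples k (List.range (2 * k * n + 1)) ∧ x.2.1 < 2 * n + 3 ∧
        x.2.2.1 < 2 * n + 3 ∧ x.2.2.2 < 2 * n + 3) := by
    refine ⟨List.replicate k (0, 0), ?_, List.replicate (k + 1) (List.replicate k 0, 0, 0, 0),
      by simp, ?_⟩
    · rw [mem_tuples]
      refine ⟨by simp, fun y hy => ?_⟩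
      rw [List.eq_of_mem_replicate hy, List.pair_mem_product]
      simp
    · intro x hx
      rw [List.eq_of_mem_replicate hx]
      refine ⟨?_, by simp, by simp, by simp⟩
      rw [mem_tuples]
      refine ⟨by simp, fun y hy => ?_⟩
      rw [List.eq_of_mem_replicate hy]
      simp
  by_cases hRne : R = []
  · obtain ⟨Θ, hΘ, ph, hph1, hph2⟩ := htriv
    refine ⟨p, hp2, L, hLlen, hLn, Θ, hΘ, ph, hph1, hph2, (hvalid Θ ph).1, (hvalid Θ ph).2,
      fun i hi => ?_⟩
    refine le_trans ?_ (hweight Θ ph i)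
    have h1 := hWnn i (cyc h)
    have h2 := hWnn i (inside (cyc h) P)
    have h3 := hWnn i (run k p w Θ (avail k n w L Θ) ph)
    rcases hPgood i hi with h4 | h4
    · linarith
    · rw [hRne] at h4
      simp only [wsum_nil, mul_zero] at h4
      linarith
  by_cases hn2 : n < 2
  · obtain ⟨Θ, hΘ, ph, hph1, hph2⟩ := htriv
    refine ⟨p, hp2, L, hLlen, hLn, Θ, hΘ, ph, hph1, hph2, (hvalid Θ ph).1, (hvalid Θ ph).2,
      fun i hi => ?_⟩
    have heq : tour n L (run k p w Θ (avail k n w L Θ) ph) = h := by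
      obtain ⟨v1, v2⟩ := hvalid Θ ph
      have hpm : (tour n L (run k p w Θ (avail k n w L Θ) ph)).Perm h :=
        (List.perm_ext_iff_of_nodup v1 hnd).2 fun v => by rw [v2, hmem]
      have hlen : h.length ≤ 1 := by
        have : h.toFinset ⊆ Finset.range n := fun v hv =>
          Finset.mem_range.2 ((hmem v).1 (List.mem_toFinset.1 hv))
        have := Finset.card_le_card this
        rw [List.toFinset_card_of_nodup hnd, Finset.card_range] at this
        omega
      match h, hlen, hpm with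
      | [], _, hpm => exact List.perm_nil.1 hpm
      | [v], _, hpm => exact List.perm_singleton.1 hpm
    rw [heq]
    have h1 := hWnn i (cyc h)
    linarith
  push Not at hn2
  have hlen2 : 2 ≤ h.length := by
    have h1 : Finset.range n ⊆ h.toFinset := fun v hv =>
      List.mem_toFinset.2 ((hmem v).2 (Finset.mem_range.1 hv))
    have h2 := Finset.card_le_card h1
    rw [List.toFinset_card_of_nodup hnd, Finset.card_range] at h2
    omega
  -- the scaling edges
  have hRmem : ∀ e ∈ R, e ∈ cyc h ∧ e.1 ∉ P ∧ e.2 ∉ P := by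
    intro e he
    have h1 := List.mem_filter.1 he
    have h2 := h1.2
    simp only [Bool.not_eq_true', decide_eq_false_iff_not] at h2
    push Not at h2
    exact ⟨h1.1, h2.1, h2.2⟩
  have hmemc : ∀ e ∈ cyc h, e.1 ∈ h ∧ e.2 ∈ h := by
    intro e he
    constructor
    · rw [← cyc_fst h]; exact List.mem_map_of_mem he
    · have : e.2 ∈ (cyc h).map Prod.snd := List.mem_map_of_mem he
      rw [cyc_snd, List.mem_rotate] at this
      exact this
  have hmax : ∀ i : Fin k, ∃ e ∈ R, ∀ f ∈ R, w i f ≤ w i e := by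
    intro i
    obtain ⟨e, he, hmax⟩ := Finset.exists_max_image R.toFinset (w i)
      (by
        obtain ⟨e, he⟩ := List.exists_mem_of_ne_nil R hRne
        exact ⟨e, List.mem_toFinset.2 he⟩)
    exact ⟨e, List.mem_toFinset.1 he, fun f hf => hmax f (List.mem_toFinset.2 hf)⟩
  choose t ht1 ht2 using hmax
  set Θ : List (ℕ × ℕ) := List.ofFn t with hΘ
  have hget : ∀ i (hi : i < k), Θ.getD i (0, 0) = t ⟨i, hi⟩ := by
    intro i hi
    rw [hΘ, List.getD_eq_getElem _ _ (by simpa using hi)]
    simp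
  have hRE : ∀ e ∈ R, e ∈ avail k n w L Θ := by
    intro e he
    obtain ⟨h1, h2, h3⟩ := hRmem e he
    obtain ⟨h4, h5⟩ := hmemc e h1
    rw [mem_avail]
    refine ⟨(hmem _).1 h4, (hmem _).1 h5, cyc_ne hnd hlen2 h1, fun h => h2 (hLP _ h),
      fun h => h3 (hLP _ h), fun i hi => ?_⟩
    rw [hget i hi]
    exact ht2 ⟨i, hi⟩ e he
  obtain ⟨ph, hph1, hph2, hph3⟩ := light k n p hp hnp w hw Θ (avail k n w L Θ) R
    (fun e he => (mem_avail.1 he).1) (fun e he i hi => (mem_avail.1 he).2.2.2.2.2 i hi) hRE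
    (by
      have : ((cyc h).map Prod.fst).Nodup := by rw [cyc_fst]; exact hnd
      exact this.sublist (List.filter_sublist.map _))
    (by
      have : ((cyc h).map Prod.snd).Nodup := by rw [cyc_snd]; exact List.nodup_rotate.2 hnd
      exact this.sublist (List.filter_sublist.map _))
    (fun i hi => by rw [hget i hi]; exact ht1 _)
  refine ⟨p, hp2, L, hLlen, hLn, Θ, ?_, ph, hph1, ?_, (hvalid Θ ph).1, (hvalid Θ ph).2,
      fun i hi => ?_⟩
  · rw [mem_tuples]
    refine ⟨by simp [hΘ], fun y hy => ?_⟩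
    rw [hΘ, List.mem_ofFn'] at hy
    obtain ⟨i, rfl⟩ := hy
    obtain ⟨h1, -, -⟩ := hRmem _ (ht1 i)
    obtain ⟨h4, h5⟩ := hmemc _ h1
    have h6 : ((t i).1, (t i).2) ∈ (List.range (n + 1)).product (List.range (n + 1)) := by
      rw [List.pair_mem_product, List.mem_range, List.mem_range]
      have := (hmem _).1 h4
      have := (hmem _).1 h5
      omega
    exact h6
  · intro x hx
    obtain ⟨a1, a2, a3, a4⟩ := hph2 x hx
    exact ⟨a1, by omega, by omega, by omega⟩
  · refine le_trans ?_ (hweight Θ ph i)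
    have h1 := hWnn i (cyc h)
    have h2 := hWnn i (inside (cyc h) P)
    have h3 := hWnn i (run k p w Θ (avail k n w L Θ) ph)
    rcases hPgood i hi with h4 | h4
    · linarith
    · have h5 := hph3 i hi
      have h6 := hPlight i hi (Θ.getD i (0, 0)) (by rw [hget i hi]; exact ht1 _)
      rw [hD] at h6
      push_cast at h6
      have h7 : 2 * ((k : ℚ) + 1) ^ 2 * w i (Θ.getD i (0, 0)) ≤ 1 / 640 * wsum (w i) (cyc h) := by
        linarith
      linarith

end Pool.Agent.Helper83.MaxTSP
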